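import Mathlib

/-!
# The odd McShane extension
-/

set_option autoImplicit false

open Finset

namespace Pool.Agent.Q98.LF

/-- the indicator vector -/
noncomputable def ind {m : ℕ} (S : Finset (Fin m)) : Fin m → ℝ := fun g => if g ∈ S then 1 else 0

lemma oddext (m : ℕ) (f : Finset (Fin m) → ℝ) (N : (Fin m → ℝ) → ℝ) (hc : Continuous N)
    (ht : ∀ u v, N (u + v) ≤ N u + N v) (h0 : N 0 = 0) (hn : ∀ u, N (-u) = N u)
    (h2 : ∀ u, N ((1 / 2 : ℝ) • u) = 1 / 2 * N u) (hf : ∀ S T, |f S - f T| ≤ N (ind S - ind T)) :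
    ∃ G : (Fin m → ℝ) → ℝ, Continuous G ∧ (∀ x, G (-x) = - G x) ∧ (∀ x y, |G x - G y| ≤ N (x - y)) ∧
      ∀ ε : Fin m → ℝ, (∀ g, ε g = 1 ∨ ε g = -1) →
        G ε = f (univ.filter fun g => ε g = 1) - f (univ.filter fun g => ε g = 1)ᶜ := by
  classical
  have hne : (univ : Finset (Finset (Fin m))).Nonempty := ⟨∅, mem_univ _⟩
  set F : (Fin m → ℝ) → ℝ := fun x => univ.inf' hne fun S => f S + N (x - ind S) with hF
  have hFle : ∀ x S, F x ≤ f S + N (x - ind S) := fun x S =>
    Finset.inf'_le (fun S => f S + N (x - ind S)) (mem_univ S)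
  have hFc : Continuous F := by
    have : Continuous fun x => univ.inf' hne fun S => f S + N (x - ind S) :=
      Continuous.finset_inf'_apply hne fun S _ =>
        continuous_const.add (hc.comp (continuous_id.sub continuous_const))
    exact this
  have hFl : ∀ x y, F x ≤ F y + N (x - y) := by
    intro x y
    obtain ⟨T, _, hT⟩ := Finset.exists_mem_eq_inf' hne fun S => f S + N (y - ind S)
    have h1 : F y = f T + N (y - ind T) := hT
    have h3 := ht (y - ind T) (x - y)
    rw [show y - ind T + (x - y) = x - ind T by abel] at h3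
    linarith [hFle x T]
  have hFl' : ∀ x y, |F x - F y| ≤ N (x - y) := by
    intro x y
    rw [abs_le]
    have h1 := hFl x y
    have h3 := hFl y x
    rw [← hn (y - x), neg_sub] at h3
    constructor <;> linarith
  have hFi : ∀ S, F (ind S) = f S := by
    intro S
    apply le_antisymm
    · have := hFle (ind S) S
      rw [sub_self, h0, add_zero] at this
      exact this
    · rw [hF]
      simp only
      rw [Finset.le_inf'_iff]
      intro T _
      have := (abs_le.mp (hf S T)).2
      linarith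
  refine ⟨fun x => F ((1 / 2 : ℝ) • ((fun _ => 1) + x)) - F ((1 / 2 : ℝ) • ((fun _ => 1) - x)), ?_, ?_, ?_, ?_⟩
  · exact (hFc.comp (by fun_prop)).sub (hFc.comp (by fun_prop))
  · intro x
    simp only [sub_neg_eq_add]
    rw [← sub_eq_add_neg]
    ring
  · intro x y
    have h1 := hFl' ((1 / 2 : ℝ) • ((fun _ => 1) + x)) ((1 / 2 : ℝ) • ((fun _ => 1) + y))
    have h3 := hFl' ((1 / 2 : ℝ) • ((fun _ => 1) - x)) ((1 / 2 : ℝ) • ((fun _ => 1) - y))
    rw [← smul_sub, h2] at h1 h3
    rw [show ((fun _ => 1 : Fin m → ℝ) + x) - ((fun _ => 1) + y) = x - y by abel] at h1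
    rw [show ((fun _ => 1 : Fin m → ℝ) - x) - ((fun _ => 1) - y) = -(x - y) by abel, hn] at h3
    rw [abs_le] at h1 h3 ⊢
    constructor <;> linarith [h1.1, h1.2, h3.1, h3.2]
  · intro ε hε
    have e1 : (1 / 2 : ℝ) • ((fun _ => 1 : Fin m → ℝ) + ε) = ind (univ.filter fun g => ε g = 1) := by
      funext g
      simp only [Pi.smul_apply, Pi.add_apply, smul_eq_mul, ind, Finset.mem_filter, mem_univ, true_and]
      rcases hε g with h | h
      · rw [h, if_pos rfl]; norm_num
      · rw [h, if_neg (by norm_num)]; norm_num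
    have e2 : (1 / 2 : ℝ) • ((fun _ => 1 : Fin m → ℝ) - ε) = ind (univ.filter fun g => ε g = 1)ᶜ := by
      funext g
      simp only [Pi.smul_apply, Pi.sub_apply, smul_eq_mul, ind, Finset.mem_compl, Finset.mem_filter,
        mem_univ, true_and]
      rcases hε g with h | h
      · rw [h, if_neg (by simp)]; norm_num
      · rw [h, if_pos (by norm_num)]; norm_num
    simp only [e1, e2, hFi]

end Pool.Agent.Q98.LF
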