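import Pool.Agent.Q98.SPN.Lind

/-!
# Rounding with few fractional coordinates
-/

set_option autoImplicit false

open Finset

namespace Pool.Agent.Q98.LF

open Pool.Agent.Q98.SPN

/-- rounding -/
lemma round2 {ι : Type} [Fintype ι] (n m : ℕ) (b : ℝ) (hb0 : 0 ≤ b)
    (a : Fin m → ι → ℝ)
    (h : ∀ S : Finset (Fin m), S.card ≤ n → ∃ ε : Fin m → ℝ, (∀ g, ε g = 1 ∨ ε g = -1) ∧
      ∀ k, |∑ g ∈ S, ε g * a g k| ≤ b)
    (x : Fin m → ℝ) (hx : ∀ g, |x g| ≤ 1) (hc : (univ.filter fun g => |x g| ≠ 1).card ≤ n) :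
    ∃ ε : Fin m → ℝ, (∀ g, ε g = 1 ∨ ε g = -1) ∧ (∀ g, |x g| = 1 → ε g = x g) ∧
      ∀ i, |∑ g, (ε g - x g) * a g i| ≤ 2 * b := by
  set F := univ.filter fun g => |x g| ≠ 1 with hF
  obtain ⟨e, he, hb⟩ := lin_disc (V := ι → ℝ) (J := F) (fun g => a g) b n
    (by
      intro S hS
      obtain ⟨ε, h1, h2⟩ := h (S.map (Function.Embedding.subtype _)) (by rw [Finset.card_map]; exact hS)
      refine ⟨fun j => ε j, fun j => h1 _, ?_⟩
      rw [pi_norm_le_iff_of_nonneg hb0]
      intro i
      have e : (∑ j ∈ S, ε j • a j) i = ∑ g ∈ S.map (Function.Embedding.subtype _), ε g * a g i := by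
        rw [Finset.sum_map, Finset.sum_apply]
        refine Finset.sum_congr rfl fun j _ => ?_
        simp
      rw [e, Real.norm_eq_abs]
      exact h2 i)
    (Or.inl (by rw [Fintype.card_coe]; exact hc)) (fun g => x g) (fun g => hx g)
  refine ⟨fun g => if h : g ∈ F then e ⟨g, h⟩ else x g, fun g => ?_, fun g hg => ?_, fun i => ?_⟩
  · by_cases h : g ∈ F
    · simp only [h, dite_true]; exact he _
    · simp only [h, dite_false]
      rw [hF, Finset.mem_filter, not_and, not_not] at h
      exact eq_or_eq_neg_of_abs_eq (h (Finset.mem_univ _))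
  · have h : g ∉ F := by
      rw [hF, Finset.mem_filter, not_and, not_not]
      exact fun _ => hg
    simp only [h, dite_false]
  · rw [pi_norm_le_iff_of_nonneg (by positivity)] at hb
    refine le_trans (le_of_eq ?_) (hb i)
    rw [Real.norm_eq_abs, Finset.sum_apply]
    congr 1
    rw [← Finset.sum_subset (Finset.subset_univ F)]
    · rw [← Finset.sum_coe_sort F]
      refine Finset.sum_congr rfl fun j _ => ?_
      simp
    · intro g _ hg
      simp [hg]

end Pool.Agent.Q98.LF
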