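import Pool.Agent.Q98.LF.Top
import Pool.Agent.Q98.LF.Ext
import Pool.Agent.Q98.LF.Rd2

/-!
# Assembly: from signed sums to Lipschitz functions of additive functions
-/

set_option autoImplicit false

open Finset

namespace Pool.Agent.Q98.LF

/-- The general assembly: `Φ i` linear maps such that `f i` is Lipschitz with respect to
`‖Φ i ·‖ + L ‖·‖₂`; points with at most `n` fractional coordinates can be rounded with error `b`. -/
theorem asm0 {E : Type*} [NormedAddCommGroup E] [NormedSpace ℝ E] (n m : ℕ)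
    (f : Fin n → Finset (Fin m) → ℝ) (Φ : Fin n → (Fin m → ℝ) →ₗ[ℝ] E) (L b : ℝ) (hL : 0 ≤ L)
    (hf : ∀ i S T, |f i S - f i T| ≤ ‖Φ i (ind S - ind T)‖ + L * ‖WithLp.toLp 2 (ind S - ind T)‖)
    (hR : ∀ x : Fin m → ℝ, (∀ g, |x g| ≤ 1) → (univ.filter fun g => |x g| ≠ 1).card ≤ n →
      ∃ ε : Fin m → ℝ, (∀ g, ε g = 1 ∨ ε g = -1) ∧ (∀ g, |x g| = 1 → ε g = x g) ∧
        ∀ i, ‖Φ i (ε - x)‖ ≤ b) :
    ∃ B : Finset (Fin m), ∀ i, |f i B - f i Bᶜ| ≤ b + 2 * L * √(n : ℝ) := by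
  classical
  set Ψ : (Fin m → ℝ) →ₗ[ℝ] EuclideanSpace ℝ (Fin m) :=
    (WithLp.linearEquiv 2 ℝ (Fin m → ℝ)).symm.toLinearMap with hΨ
  have hΨa : ∀ v, Ψ v = WithLp.toLp 2 v := fun v => rfl
  have hex : ∀ i, ∃ G : (Fin m → ℝ) → ℝ, Continuous G ∧ (∀ x, G (-x) = - G x) ∧
      (∀ x y, |G x - G y| ≤ ‖Φ i (x - y)‖ + L * ‖Ψ (x - y)‖) ∧
      ∀ ε : Fin m → ℝ, (∀ g, ε g = 1 ∨ ε g = -1) →
        G ε = f i (univ.filter fun g => ε g = 1) - f i (univ.filter fun g => ε g = 1)ᶜ := by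
    intro i
    refine oddext m (f i) (fun v => ‖Φ i v‖ + L * ‖Ψ v‖) ?_ ?_ ?_ ?_ ?_ ?_
    · have h1 : Continuous (Φ i) := LinearMap.continuous_of_finiteDimensional _
      have h2 : Continuous Ψ := LinearMap.continuous_of_finiteDimensional _
      exact h1.norm.add (continuous_const.mul h2.norm)
    · intro u v
      rw [map_add, map_add]
      have h1 := norm_add_le (Φ i u) (Φ i v)
      have h2 := mul_le_mul_of_nonneg_left (norm_add_le (Ψ u) (Ψ v)) hL
      linarith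
    · simp
    · intro u
      rw [map_neg, map_neg, norm_neg, norm_neg]
    · intro u
      rw [map_smul, map_smul, norm_smul, norm_smul, Real.norm_of_nonneg (by norm_num)]
      ring
    · intro S T
      exact hf i S T
  choose G hGc hGo hGl hGe using hex
  obtain ⟨x, hx, hxc, hx0⟩ := few n m G hGc hGo
  obtain ⟨ε, hε, hεx, hb⟩ := hR x hx hxc
  refine ⟨univ.filter fun g => ε g = 1, fun i => ?_⟩
  rw [← hGe i ε hε]
  have h1 := hGl i ε x
  rw [hx0, sub_zero] at h1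
  refine h1.trans (add_le_add (hb i) ?_)
  rw [mul_comm 2 L, mul_assoc]
  refine mul_le_mul_of_nonneg_left ?_ hL
  rw [hΨa, EuclideanSpace.norm_eq]
  have h2 : (2 : ℝ) * √(n : ℝ) = √(4 * n) := by
    rw [Real.sqrt_mul (by norm_num), show (4 : ℝ) = 2 ^ 2 by norm_num, Real.sqrt_sq (by norm_num)]
  rw [h2]
  apply Real.sqrt_le_sqrt
  have h3 : ∀ g, ‖(WithLp.toLp 2 (ε - x) : EuclideanSpace ℝ (Fin m)) g‖ ^ 2 ≤
      if |x g| ≠ 1 then (4 : ℝ) else 0 := by
    intro g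
    have e : (WithLp.toLp 2 (ε - x) : EuclideanSpace ℝ (Fin m)) g = ε g - x g := rfl
    rw [e, Real.norm_eq_abs, sq_abs]
    split_ifs with h
    · have h4 := abs_le.mp (hx g)
      rcases hε g with h5 | h5 <;> rw [h5] <;> nlinarith
    · push Not at h
      rw [hεx g h]
      simp
  refine (Finset.sum_le_sum fun g _ => h3 g).trans ?_
  rw [← Finset.sum_filter, Finset.sum_const, nsmul_eq_mul]
  have : ((univ.filter fun g => |x g| ≠ 1).card : ℝ) ≤ n := by exact_mod_cast hxc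
  linarith

end Pool.Agent.Q98.LF
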