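import Pool.Agent.Q98.LF.Pc

/-!
# Full colouring with different widths
-/

set_option autoImplicit false

open Finset

namespace Pool.Agent.Q98.LF

/-- admissible widths -/
def Hyp {m : ℕ} (m0 : ℕ) (w : Fin m → ℝ) : Prop := ∀ M : ℕ, 4 ≤ M → M ≤ m0 →
  ∃ t : Fin m → ℝ, (∀ k, 0 ≤ t k) ∧ (∀ k, t k * (w k * √(M : ℝ)) ≤ 5 * √(√((m0 : ℝ) * M))) ∧
    (∀ k, 2 * Real.exp (-(t k) ^ 2 / 2) ≤ 1 / 2) ∧
    ∑ k, 2 * (2 * Real.exp (-(t k) ^ 2 / 2)) ≤ 3 * (M : ℝ) / 200

/-- colouring step on a finite set of indices -/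
theorem partial_set2 {n m m0 : ℕ} (a : Fin n → Fin m → ℝ) (w : Fin m → ℝ) (ha : ∀ i k, |a i k| ≤ w k)
    (H : Hyp m0 w) (S : Finset (Fin n)) (h4 : 4 ≤ S.card) (hS : S.card ≤ m0) :
    ∃ δ : Fin n → ℝ, (∀ i, δ i = 0 ∨ δ i = 1 ∨ δ i = -1) ∧
      (S.card : ℝ) ≤ 10 * ((S.filter fun i => δ i ≠ 0).card : ℝ) ∧
      ∀ k, |∑ i ∈ S, δ i * a i k| ≤ 50 * √(√((m0 : ℝ) * S.card)) := by
  classical
  set e := S.equivFin with he
  obtain ⟨t, ht, htw, hq, hsum⟩ := H S.card h4 hS
  obtain ⟨δ, h1, h2, h3⟩ := partial2 S.card m h4 (fun j k => a (e.symm j) k) w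
    (fun j k => ha _ _) _ t ht htw hq hsum
  refine ⟨fun i => if h : i ∈ S then δ (e ⟨i, h⟩) else 0, ?_, ?_, ?_⟩
  · intro i
    by_cases h : i ∈ S
    · simp only [h, dif_pos]; exact h1 _
    · simp [h]
  · refine h2.trans (le_of_eq ?_)
    congr 2
    refine Finset.card_bij (fun j _ => (e.symm j : Fin n)) ?_ ?_ ?_
    · intro j hj
      have := (Finset.mem_filter.1 hj).2
      simp only [Finset.mem_filter, Finset.coe_mem, true_and, dif_pos]
      simpa using this
    · intro j _ j' _ h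
      exact e.symm.injective (Subtype.ext h)
    · intro i hi
      obtain ⟨hiS, hne⟩ := Finset.mem_filter.1 hi
      simp only [hiS, dif_pos] at hne
      exact ⟨e ⟨i, hiS⟩, Finset.mem_filter.2 ⟨Finset.mem_univ _, hne⟩, by simp⟩
  · intro k
    refine le_trans (le_of_eq ?_) ((h3 k).trans (by linarith))
    congr 1
    rw [← Finset.sum_coe_sort S, ← Equiv.sum_comp e.symm]
    refine Finset.sum_congr rfl fun j _ => ?_
    simp

theorem herdisc2 {n m m0 : ℕ} (a : Fin n → Fin m → ℝ) (w : Fin m → ℝ) (hw : ∀ k, w k ≤ 1)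
    (ha : ∀ i k, |a i k| ≤ w k) (H : Hyp m0 w) :
    ∀ (c : ℕ) (S : Finset (Fin n)), S.card = c → S.card ≤ m0 →
    ∃ ε : Fin n → ℝ, (∀ i, ε i = 1 ∨ ε i = -1) ∧
      ∀ k, |∑ i ∈ S, ε i * a i k| ≤ 2000 * √(√((m0 : ℝ) * S.card)) := by
  classical
  intro c
  induction c using Nat.strong_induction_on with
  | _ c ih =>
    intro S hc hS
    by_cases h4 : 4 ≤ S.card
    · obtain ⟨δ, h1, h2, h3⟩ := partial_set2 a w ha H S h4 hS
      set Z := S.filter fun i => δ i = 0 with hZ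
      have hZc : Z.card + (S.filter fun i => δ i ≠ 0).card = S.card :=
        Finset.card_filter_add_card_filter_not (s := S) (fun i => δ i = 0)
      have hZr : (Z.card : ℝ) + ((S.filter fun i => δ i ≠ 0).card : ℝ) = S.card := by
        exact_mod_cast hZc
      have hS0 : (0 : ℝ) < S.card := by exact_mod_cast (by omega : 0 < S.card)
      have hZle : (Z.card : ℝ) ≤ 9 / 10 * S.card := by linarith
      have hZlt : Z.card < c := by
        rw [← hc]
        have : (Z.card : ℝ) < S.card := by linarith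
        exact_mod_cast this
      obtain ⟨ε, g1, g2⟩ := ih Z.card hZlt Z rfl (by omega)
      refine ⟨fun i => if δ i = 0 then ε i else δ i, ?_, ?_⟩
      · intro i
        by_cases h : δ i = 0
        · simp only [h, if_true]; exact g1 i
        · simp only [h, if_false]
          rcases h1 i with h' | h' | h'
          · exact absurd h' h
          · exact Or.inl h'
          · exact Or.inr h'
      · intro k
        have e1 : ∑ i ∈ S, (if δ i = 0 then ε i else δ i) * a i k =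
            ∑ i ∈ S, δ i * a i k + ∑ i ∈ Z, ε i * a i k := by
          rw [hZ, Finset.sum_filter, ← Finset.sum_add_distrib]
          refine Finset.sum_congr rfl fun i _ => ?_
          by_cases h : δ i = 0 <;> simp [h]
        rw [e1]
        have e2 : √(√((m0 : ℝ) * Z.card)) ≤ 975 / 1000 * √(√((m0 : ℝ) * S.card)) := by
          have h5 : √(√((975 / 1000 : ℝ) ^ 4)) = 975 / 1000 := by
            have : ((975 / 1000 : ℝ) ^ 4) = ((975 / 1000) ^ 2) ^ 2 := by norm_num
            rw [this, Real.sqrt_sq (by norm_num), Real.sqrt_sq (by norm_num)]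
          rw [← h5, ← Real.sqrt_mul (by positivity), ← Real.sqrt_mul (by positivity)]
          apply Real.sqrt_le_sqrt
          apply Real.sqrt_le_sqrt
          have hm : (0 : ℝ) ≤ m0 := by positivity
          nlinarith [mul_le_mul_of_nonneg_left hZle hm, mul_nonneg hm hS0.le]
        calc |∑ i ∈ S, δ i * a i k + ∑ i ∈ Z, ε i * a i k|
            ≤ |∑ i ∈ S, δ i * a i k| + |∑ i ∈ Z, ε i * a i k| := abs_add_le _ _
          _ ≤ 50 * √(√((m0 : ℝ) * S.card)) + 2000 * √(√((m0 : ℝ) * Z.card)) :=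
              add_le_add (h3 k) (g2 k)
          _ ≤ _ := by
              have := Real.sqrt_nonneg (√((m : ℝ) * S.card))
              linarith
    · refine ⟨fun _ => 1, fun _ => Or.inl rfl, fun k => ?_⟩
      push Not at h4
      calc |∑ i ∈ S, 1 * a i k| ≤ ∑ i ∈ S, |1 * a i k| := Finset.abs_sum_le_sum_abs _ _
        _ ≤ ∑ _i ∈ S, (1 : ℝ) := Finset.sum_le_sum fun i _ => by rw [one_mul]; exact (ha i k).trans (hw k)
        _ = S.card := by simp
        _ ≤ 2000 * √(√((m0 : ℝ) * S.card)) := by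
          rcases Nat.eq_zero_or_pos S.card with h0 | h0
          · rw [h0]; simp
          · have hs1 : (1 : ℝ) ≤ S.card := by exact_mod_cast h0
            have hm1 : (1 : ℝ) ≤ m0 := by exact_mod_cast (by omega : 1 ≤ m0)
            have h3 : (S.card : ℝ) ≤ 3 := by exact_mod_cast (by omega : S.card ≤ 3)
            have : 1 ≤ √(√((m0 : ℝ) * S.card)) := by
              rw [Real.one_le_sqrt, Real.one_le_sqrt]
              nlinarith
            linarith

theorem herdisc2' {n m m0 : ℕ} (a : Fin n → Fin m → ℝ) (w : Fin m → ℝ) (hw : ∀ k, w k ≤ 1)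
    (ha : ∀ i k, |a i k| ≤ w k) (H : Hyp m0 w) (S : Finset (Fin n)) (hS : S.card ≤ m0) :
    ∃ ε : Fin n → ℝ, (∀ i, ε i = 1 ∨ ε i = -1) ∧
      ∀ k, |∑ i ∈ S, ε i * a i k| ≤ 2000 * √(m0 : ℝ) := by
  obtain ⟨ε, h1, h2⟩ := herdisc2 a w hw ha H _ S rfl hS
  refine ⟨ε, h1, fun k => (h2 k).trans ?_⟩
  have hS' : (S.card : ℝ) ≤ m0 := by exact_mod_cast hS
  have hm : (0 : ℝ) ≤ m0 := by positivity
  have : √(√((m0 : ℝ) * S.card)) ≤ √(m0 : ℝ) := by
    apply Real.sqrt_le_sqrt
    calc √((m0 : ℝ) * S.card) ≤ √((m0 : ℝ) ^ 2) := Real.sqrt_le_sqrt (by nlinarith)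
      _ = m0 := Real.sqrt_sq hm
  linarith


end Pool.Agent.Q98.LF
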