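import Pool.Agent.Q154.SPN.NET

/-!
# Hilbert-valued sums: nets and the spectral decomposition
-/

set_option autoImplicit false

open Finset
open scoped RealInnerProductSpace Matrix

namespace Pool.Agent.Q98.LF

theorem grp {M : ℕ} (e : OrthonormalBasis (Fin M) ℝ (EuclideanSpace ℝ (Fin M))) (lam : Fin M → ℝ)
    (Λ : ℝ) (R : Finset (Fin M)) (h0 : ∀ r ∈ R, 0 ≤ lam r) (h1 : ∀ r ∈ R, lam r ≤ Λ) (hΛ : 0 ≤ Λ) :
    ∃ W : Finset (EuclideanSpace ℝ (Fin M)), W.card ≤ 5 ^ R.card ∧
      (∀ w ∈ W, ‖w‖ ≤ 3 / 2 * √Λ) ∧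
      ∀ (x : EuclideanSpace ℝ (Fin M)) (τ : ℝ), 0 ≤ τ → (∀ w ∈ W, |⟪x, w⟫| ≤ τ) →
        ∑ r ∈ R, lam r * ⟪e r, x⟫ ^ 2 ≤ (2 * τ) ^ 2 := by
  classical
  obtain ⟨F, hF, hnet⟩ := Pool.Agent.Q154.SPN.net_two (EuclideanSpace ℝ R) (1 / 2) (by norm_num)
  have hfr : Module.finrank ℝ (EuclideanSpace ℝ R) = R.card := by simp
  rw [hfr] at hF
  set w : EuclideanSpace ℝ R → EuclideanSpace ℝ (Fin M) := fun c => ∑ r : R, (c r * √(lam r)) • e r with hw
  have hin : ∀ (x : EuclideanSpace ℝ (Fin M)) (c : EuclideanSpace ℝ R),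
      ⟪x, w c⟫ = ∑ r : R, (√(lam r) * ⟪e r, x⟫) * c r := by
    intro x c
    rw [hw, inner_sum]
    refine Finset.sum_congr rfl fun r _ => ?_
    rw [inner_smul_right, real_inner_comm]
    ring
  have hnw : ∀ c, ‖w c‖ ^ 2 = ∑ r : R, c r ^ 2 * lam r := by
    intro c
    rw [← real_inner_self_eq_norm_sq, hin]
    refine Finset.sum_congr rfl fun r _ => ?_
    have : ⟪e r, w c⟫ = c r * √(lam r) := by
      rw [hw, inner_sum, Finset.sum_eq_single r]
      · rw [inner_smul_right, real_inner_self_eq_norm_sq, e.orthonormal.1 r]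
        ring
      · intro s _ hs
        rw [inner_smul_right, e.orthonormal.2 (fun h => hs (Subtype.ext h).symm), mul_zero]
      · intro h
        exact absurd (Finset.mem_univ r) h
    rw [this]
    have h2 := Real.mul_self_sqrt (h0 r r.2)
    calc √(lam r) * (c r * √(lam r)) * c r = c r ^ 2 * (√(lam r) * √(lam r)) := by ring
      _ = _ := by rw [h2]
  refine ⟨(F.filter fun c => ‖c‖ ≤ 3 / 2).image w,
    Finset.card_image_le.trans ((Finset.card_filter_le _ _).trans hF), ?_, ?_⟩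
  · intro u hu
    obtain ⟨c, hc, rfl⟩ := Finset.mem_image.1 hu
    have hc2 := (Finset.mem_filter.1 hc).2
    have h3 : ‖w c‖ ^ 2 ≤ (3 / 2 * √Λ) ^ 2 := by
      rw [hnw, mul_pow, Real.sq_sqrt hΛ]
      calc ∑ r : R, c r ^ 2 * lam r ≤ ∑ r : R, c r ^ 2 * Λ :=
            Finset.sum_le_sum fun r _ => mul_le_mul_of_nonneg_left (h1 r r.2) (sq_nonneg _)
        _ = ‖c‖ ^ 2 * Λ := by
            rw [← Finset.sum_mul, EuclideanSpace.real_norm_sq_eq]
        _ ≤ _ := by
            have := norm_nonneg c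
            nlinarith [mul_le_mul hc2 hc2 this (by norm_num)]
    exact le_of_sq_le_sq h3 (by positivity)
  · intro x τ hτ hx
    set z : EuclideanSpace ℝ R := WithLp.toLp 2 (fun r : R => √(lam r) * ⟪e r, x⟫) with hz
    have hzs : ‖z‖ ^ 2 = ∑ r ∈ R, lam r * ⟪e r, x⟫ ^ 2 := by
      rw [EuclideanSpace.real_norm_sq_eq, ← Finset.sum_coe_sort R]
      refine Finset.sum_congr rfl fun r _ => ?_
      have : z r = √(lam r) * ⟪e r, x⟫ := rfl
      rw [this, mul_pow, Real.sq_sqrt (h0 r r.2)]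
    rw [← hzs]
    have hzc : ∀ c, ⟪z, c⟫ = ⟪x, w c⟫ := by
      intro c
      rw [hin, PiLp.inner_apply]
      refine Finset.sum_congr rfl fun r _ => ?_
      have : z r = √(lam r) * ⟪e r, x⟫ := rfl
      rw [this]
      simp [mul_comm]
    have hle : ‖z‖ ≤ 2 * τ := by
      by_cases hz0 : ‖z‖ = 0
      · rw [hz0]; positivity
      have hzp : 0 < ‖z‖ := lt_of_le_of_ne (norm_nonneg _) (Ne.symm hz0)
      set u : EuclideanSpace ℝ R := ‖z‖⁻¹ • z with hu
      have hun : ‖u‖ = 1 := by rw [hu, norm_smul, norm_inv, norm_norm, inv_mul_cancel₀ hz0]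
      obtain ⟨y, hy, hyu⟩ := hnet u (by rw [hun]; norm_num)
      have hyn : ‖y‖ ≤ 3 / 2 := by
        have : ‖y‖ ≤ ‖u‖ + ‖u - y‖ := by
          have := norm_sub_le u (u - y)
          simpa using this
        rw [hun] at this
        linarith
      have h5 := hx (w y) (Finset.mem_image_of_mem _ (Finset.mem_filter.2 ⟨hy, hyn⟩))
      rw [← hzc] at h5
      have h6 : ‖z‖ = ⟪z, u⟫ := by
        rw [hu, inner_smul_right, real_inner_self_eq_norm_sq]
        field_simp
      have h7 : ⟪z, u⟫ = ⟪z, y⟫ + ⟪z, u - y⟫ := by rw [inner_sub_right]; ring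
      have h8 : ⟪z, u - y⟫ ≤ ‖z‖ * (1 / 2) :=
        (real_inner_le_norm z (u - y)).trans (mul_le_mul_of_nonneg_left hyu hzp.le)
      have h9 := (le_abs_self ⟪z, y⟫).trans h5
      linarith
    have := norm_nonneg z
    nlinarith

/-- spectral decomposition of a finite family of vectors of a Hilbert space -/
theorem spec {M : ℕ} {H : Type} [NormedAddCommGroup H] [InnerProductSpace ℝ H] (v : Fin M → H) :
    ∃ (e : OrthonormalBasis (Fin M) ℝ (EuclideanSpace ℝ (Fin M))) (lam : Fin M → ℝ),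
      (∀ r, 0 ≤ lam r) ∧ ∑ r, lam r = ∑ g, ‖v g‖ ^ 2 ∧
      ∀ x : EuclideanSpace ℝ (Fin M), ‖∑ g, x g • v g‖ ^ 2 = ∑ r, lam r * ⟪e r, x⟫ ^ 2 := by
  classical
  have hG : (Matrix.gram ℝ v).IsHermitian := Matrix.isHermitian_gram ℝ v
  have hP : (Matrix.gram ℝ v).PosSemidef := Matrix.posSemidef_gram ℝ v
  refine ⟨hG.eigenvectorBasis, hG.eigenvalues, fun r => hP.eigenvalues_nonneg r, ?_, ?_⟩
  · have h1 := hG.trace_eq_sum_eigenvalues
    simp only [RCLike.ofReal_real_eq_id, id_eq] at h1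
    rw [← h1, Matrix.trace]
    refine Finset.sum_congr rfl fun g _ => ?_
    simp [Matrix.gram]
  · intro x
    set e := hG.eigenvectorBasis with he
    set T : EuclideanSpace ℝ (Fin M) →ₗ[ℝ] H :=
      { toFun := fun x => ∑ g, x g • v g
        map_add' := fun x y => by
          rw [← Finset.sum_add_distrib]
          refine Finset.sum_congr rfl fun g _ => ?_
          rw [PiLp.add_apply, add_smul]
        map_smul' := fun c x => by
          rw [RingHom.id_apply, Finset.smul_sum]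
          refine Finset.sum_congr rfl fun g _ => ?_
          rw [PiLp.smul_apply, smul_eq_mul, mul_smul] } with hT
    have hTa : ∀ x, T x = ∑ g, x g • v g := fun x => rfl
    have hTT : ∀ r s, ⟪T (e r), T (e s)⟫ = hG.eigenvalues s * (if r = s then 1 else 0) := by
      intro r s
      rw [hTa, hTa, ← Matrix.star_dotProduct_gram_mulVec v (e r).ofLp (e s).ofLp,
        hG.mulVec_eigenvectorBasis s, dotProduct_smul]
      have h2 : star (e r).ofLp ⬝ᵥ (e s).ofLp = ⟪e r, e s⟫ := by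
        rw [PiLp.inner_apply]
        simp [dotProduct, mul_comm]
      rw [h2, orthonormal_iff_ite.1 e.orthonormal r s, smul_eq_mul]
    rw [← hTa, ← real_inner_self_eq_norm_sq]
    conv_lhs => rw [← e.sum_repr' x]
    rw [map_sum, sum_inner]
    refine Finset.sum_congr rfl fun r _ => ?_
    rw [inner_sum, Finset.sum_eq_single r]
    · rw [map_smul, inner_smul_left, inner_smul_right, hTT]
      simp
      ring
    · intro s _ hs
      rw [map_smul, map_smul, inner_smul_left, inner_smul_right, hTT, if_neg (fun h => hs h.symm)]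
      simp
    · intro h
      exact absurd (Finset.mem_univ r) h

end Pool.Agent.Q98.LF
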