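import Mathlib

/-!
# The widths `1 / √(1 + log j)`
-/

set_option autoImplicit false

open Finset

namespace Pool.Agent.Q98.LF

/-- the width of the functional number `j = 0, 1, 2, …` -/
noncomputable def wt (j : ℕ) : ℝ := 1 / √(1 + Real.log (j + 1))

lemma log_nn (j : ℕ) : 0 ≤ Real.log ((j : ℝ) + 1) :=
  Real.log_nonneg (by linarith [Nat.cast_nonneg (α := ℝ) j])

lemma wt_pos (j : ℕ) : 0 < wt j := by
  have := log_nn j
  unfold wt
  positivity

lemma wt_le (j : ℕ) : wt j ≤ 1 := by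
  have := log_nn j
  unfold wt
  rw [div_le_one (by positivity), Real.one_le_sqrt]
  linarith

lemma sum_sq (k : ℕ) : ∑ j ∈ range k, 1 / ((j : ℝ) + 1) ^ 2 ≤ 2 := by
  have h : ∀ k : ℕ, ∑ j ∈ range (k + 1), 1 / ((j : ℝ) + 1) ^ 2 ≤ 2 - 1 / ((k : ℝ) + 1) := by
    intro k
    induction k with
    | zero => simp; norm_num
    | succ k ih =>
      rw [Finset.sum_range_succ]
      refine (add_le_add_left ih _).trans ?_
      have hk : (0 : ℝ) ≤ k := Nat.cast_nonneg k
      push_cast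
      have h1 : 1 / ((k : ℝ) + 1 + 1) ^ 2 ≤ 1 / (k + 1) - 1 / (k + 1 + 1) := by
        rw [div_sub_div _ _ (by positivity) (by positivity), div_le_div_iff₀ (by positivity) (by positivity)]
        nlinarith
      linarith
  rcases k with _ | k
  · simp
  · refine (h k).trans ?_
    have : (0 : ℝ) ≤ 1 / ((k : ℝ) + 1) := by positivity
    linarith

/-- the numerical estimate -/
lemma est (n M : ℕ) (hM : 0 < M) (hMn : M ≤ n) (j : ℕ) :
    Real.exp (-((5 * √(√((n : ℝ) / M)) * √(1 + Real.log ((j : ℝ) + 1))) ^ 2) / 2) ≤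
      (M : ℝ) / (1000 * n) * (1 / ((j : ℝ) + 1) ^ 2) := by
  have hM0 : (0 : ℝ) < M := by exact_mod_cast hM
  have hMn' : (M : ℝ) ≤ n := by exact_mod_cast hMn
  have hn0 : (0 : ℝ) < n := lt_of_lt_of_le hM0 hMn'
  have hl := log_nn j
  have hj : (0 : ℝ) < (j : ℝ) + 1 := by positivity
  set y : ℝ := √((n : ℝ) / M) with hy
  have hy1 : 1 ≤ y := by
    rw [hy, Real.one_le_sqrt, one_le_div hM0]; exact hMn'
  have hy2 : y ^ 2 = (n : ℝ) / M := Real.sq_sqrt (by positivity)
  set l : ℝ := Real.log ((j : ℝ) + 1) with hldef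
  have e1 : -((5 * √y * √(1 + l)) ^ 2) / 2 = -(12.5 * y) + -(12.5 * y * l) := by
    rw [mul_pow, mul_pow, Real.sq_sqrt (by linarith), Real.sq_sqrt (by linarith)]
    ring
  rw [e1, Real.exp_add]
  have h1 : Real.exp (-(12.5 * y)) ≤ 1 / (1000 * y ^ 4) := by
    have hexp : (12.5 * y) ^ 4 / 24 ≤ Real.exp (12.5 * y) := by
      have := Real.pow_div_factorial_le_exp (12.5 * y) (by linarith) 4
      simpa [Nat.factorial] using this
    rw [Real.exp_neg, ← one_div]
    apply one_div_le_one_div_of_le (by positivity)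
    refine le_trans ?_ hexp
    have : (0 : ℝ) < y ^ 4 := by positivity
    nlinarith
  have h2 : Real.exp (-(12.5 * y * l)) ≤ 1 / ((j : ℝ) + 1) ^ 2 := by
    have h3 : Real.exp (-(12.5 * y * l)) ≤ Real.exp (-(2 * l)) := by
      apply Real.exp_le_exp.2
      nlinarith
    refine h3.trans (le_of_eq ?_)
    rw [Real.exp_neg, ← one_div, show (2 : ℝ) * l = l + l by ring, Real.exp_add, hldef, Real.exp_log hj]
    congr 1
    ring
  have h3 : 1 / (1000 * y ^ 4) ≤ (M : ℝ) / (1000 * n) := by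
    rw [div_le_div_iff₀ (by positivity) (by positivity)]
    have h4 : (n : ℝ) = M * y ^ 2 := by rw [hy2]; field_simp
    have h5 : y ^ 2 ≤ y ^ 4 := pow_le_pow_right₀ hy1 (by norm_num)
    rw [h4]
    have : (M : ℝ) * y ^ 2 ≤ M * y ^ 4 := mul_le_mul_of_nonneg_left h5 hM0.le
    linarith
  exact mul_le_mul (h1.trans h3) h2 (Real.exp_pos _).le (by positivity)

end Pool.Agent.Q98.LF
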