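import Pool.Agent.Q98.LF.P3
import Pool.Agent.Q98.LF.H1
import Pool.Agent.Q98.LF.Wt

/-!
# Partial colouring for Hilbert norms
-/

set_option autoImplicit false

open Finset
open scoped RealInnerProductSpace

namespace Pool.Agent.Q98.LF

lemma sum_half' (L : ℕ) : ∑ s ∈ range L, ((s : ℝ) + 1) / 2 ^ s ≤ 4 := by
  have h : ∀ L : ℕ, ∑ s ∈ range L, ((s : ℝ) + 1) / 2 ^ s = 4 - (2 * L + 4) / 2 ^ L := by
    intro L
    induction L with
    | zero => simp
    | succ L ih =>
      rw [Finset.sum_range_succ, ih, pow_succ]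
      push_cast
      field_simp
      ring
  rw [h]
  have : (0 : ℝ) ≤ (2 * L + 4) / 2 ^ L := by positivity
  linarith

lemma sum_quarter (L : ℕ) : ∑ s ∈ range L, (1 / 4 : ℝ) ^ s ≤ 4 / 3 := by
  have h : ∀ L : ℕ, ∑ s ∈ range L, (1 / 4 : ℝ) ^ s = 4 / 3 - 4 / 3 * (1 / 4) ^ L := by
    intro L
    induction L with
    | zero => simp
    | succ L ih => rw [Finset.sum_range_succ, ih, pow_succ]; ring
  rw [h]
  have : (0 : ℝ) < (1 / 4) ^ L := by positivity
  linarith

lemma exp_m2 : Real.exp (-2) ≤ 1 / 5 := by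
  rw [Real.exp_neg, ← one_div]
  apply one_div_le_one_div_of_le (by norm_num)
  have h7 : (1 : ℝ) + 2 + 2 ^ 2 / 2 ≤ Real.exp 2 := Real.quadratic_le_exp_of_nonneg (by norm_num)
  linarith

/-- the estimate of one slab -/
lemma est2 (n M : ℕ) (hM : 0 < M) (hMn : M ≤ n) (s m : ℕ) (l : ℝ) (hl : 0 ≤ l) :
    (5 : ℝ) ^ m * Real.exp (-(√(25 * √((n : ℝ) / M) * (s + 1) * (1 + l) + 4 * m)) ^ 2 / 2) ≤
      (M : ℝ) / (1000 * n) * (1 / 4) ^ s * Real.exp (-(2 * l)) := by
  have hM0 : (0 : ℝ) < M := by exact_mod_cast hM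
  have hMn' : (M : ℝ) ≤ n := by exact_mod_cast hMn
  have hn0 : (0 : ℝ) < n := lt_of_lt_of_le hM0 hMn'
  have h0 := est n M hM hMn 0
  set y : ℝ := √((n : ℝ) / M) with hy
  have hy1 : 1 ≤ y := by
    rw [hy, Real.one_le_sqrt, one_le_div hM0]; exact hMn'
  have e0 : -((5 * √y * √(1 + Real.log (((0 : ℕ) : ℝ) + 1))) ^ 2) / 2 = -(12.5 * y) := by
    rw [mul_pow, mul_pow, Real.sq_sqrt (by linarith)]
    simp
    ring
  rw [e0] at h0
  simp only [Nat.cast_zero, zero_add, one_pow, div_one, mul_one] at h0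
  rw [Real.sq_sqrt (by positivity)]
  have hs0 : (0 : ℝ) ≤ s := Nat.cast_nonneg s
  have hyl : 0 ≤ y * l * s := by positivity
  have e1 : Real.exp (-(25 * y * ((s : ℝ) + 1) * (1 + l) + 4 * m) / 2) ≤
      Real.exp (-(12.5 * y) + (-(2 * (s : ℝ)) + (-(2 * l) + -(2 * (m : ℝ))))) := by
    apply Real.exp_le_exp.2
    have h1 : 2 * (s : ℝ) ≤ 12.5 * y * s := by nlinarith
    have h2 : 2 * l ≤ 12.5 * y * l := by nlinarith
    nlinarith
  refine (mul_le_mul_of_nonneg_left e1 (by positivity)).trans ?_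
  rw [Real.exp_add, Real.exp_add, Real.exp_add]
  have h2 : Real.exp (-(2 * (s : ℝ))) ≤ (1 / 4) ^ s := by
    have h4 : Real.exp (-(2 * (s : ℝ))) = (Real.exp (-2)) ^ s := by
      rw [← Real.exp_nat_mul]; ring_nf
    rw [h4]
    exact pow_le_pow_left₀ (Real.exp_pos _).le (exp_m2.trans (by norm_num)) s
  have h5 : (5 : ℝ) ^ m * Real.exp (-(2 * (m : ℝ))) ≤ 1 := by
    have h6 : Real.exp (-(2 * (m : ℝ))) = (Real.exp (-2)) ^ m := by
      rw [← Real.exp_nat_mul]; ring_nf
    rw [h6, ← mul_pow]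
    apply pow_le_one₀ (by positivity)
    have := exp_m2
    linarith
  calc (5 : ℝ) ^ m * (Real.exp (-(12.5 * y)) * (Real.exp (-(2 * (s : ℝ))) *
        (Real.exp (-(2 * l)) * Real.exp (-(2 * (m : ℝ))))))
      = Real.exp (-(12.5 * y)) * Real.exp (-(2 * (s : ℝ))) * Real.exp (-(2 * l)) *
          ((5 : ℝ) ^ m * Real.exp (-(2 * (m : ℝ)))) := by ring
    _ ≤ Real.exp (-(12.5 * y)) * Real.exp (-(2 * (s : ℝ))) * Real.exp (-(2 * l)) * 1 :=
        mul_le_mul_of_nonneg_left h5 (by positivity)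
    _ = Real.exp (-(12.5 * y)) * Real.exp (-(2 * (s : ℝ))) * Real.exp (-(2 * l)) := mul_one _
    _ ≤ _ := mul_le_mul_of_nonneg_right (mul_le_mul h0 h2 (Real.exp_pos _).le (by positivity))
        (Real.exp_pos _).le

theorem hil_partial {N n M : ℕ} (hM : 4 ≤ M) (hMn : M ≤ n) {H : Type} [NormedAddCommGroup H]
    [InnerProductSpace ℝ H] (l : Fin N → ℝ) (hl : ∀ q, 0 ≤ l q)
    (hlsum : ∑ q, Real.exp (-(2 * l q)) ≤ 2 * n)
    (v : Fin N → Fin M → H) (hv : ∀ i g, ‖v i g‖ * √(1 + l i) ≤ 1) :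
    ∃ δ : Fin M → ℝ, (∀ i, δ i = 0 ∨ δ i = 1 ∨ δ i = -1) ∧
      (M : ℝ) ≤ 10 * ((univ.filter fun i => δ i ≠ 0).card : ℝ) ∧
      ∀ i, ‖∑ g, δ g • v i g‖ ≤ 312 * √(√((n : ℝ) * M)) := by
  classical
  have hM0 : (0 : ℝ) < M := by exact_mod_cast (by omega : 0 < M)
  have hMn' : (M : ℝ) ≤ n := by exact_mod_cast hMn
  have hn0 : (0 : ℝ) < n := lt_of_lt_of_le hM0 hMn'
  have hl1 : ∀ q, 0 < 1 + l q := fun q => by linarith [hl q]
  set K : Fin N → ℝ := fun q => (M : ℝ) / (1 + l q) with hK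
  have hK0 : ∀ q, 0 < K q := fun q => div_pos hM0 (hl1 q)
  have hKl : ∀ q, K q * (1 + l q) = M := fun q => div_mul_cancel₀ _ (hl1 q).ne'
  have hKM : ∀ q, K q ≤ M := fun q => by
    have := hKl q
    have h1 := hK0 q
    nlinarith [hl q]
  choose e lam hl0 hls hlx using fun i => spec (v i)
  have hsumM : ∀ i, ∑ r, lam i r ≤ K i := by
    intro i
    rw [hls]
    calc ∑ g, ‖v i g‖ ^ 2 ≤ ∑ _g : Fin M, 1 / (1 + l i) := by
          refine Finset.sum_le_sum fun g _ => ?_
          have h1 := hv i g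
          have h2 := norm_nonneg (v i g)
          rw [le_div_iff₀ (hl1 i)]
          have h3 : ‖v i g‖ ^ 2 * (1 + l i) = (‖v i g‖ * √(1 + l i)) ^ 2 := by
            rw [mul_pow, Real.sq_sqrt (hl1 i).le]
          rw [h3]
          exact pow_le_one₀ (by positivity) h1
      _ = K i := by simp [hK]; ring
  have hlM : ∀ i r, lam i r ≤ K i := fun i r =>
    (Finset.single_le_sum (fun r _ => hl0 i r) (Finset.mem_univ r)).trans (hsumM i)
  have hσ : ∀ i r, ∃ s : ℕ, 0 < lam i r → K i / 2 ^ s ≤ 2 * lam i r ∧ lam i r ≤ K i / 2 ^ s := by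
    intro i r
    by_cases h : 0 < lam i r
    · obtain ⟨s, h1, h2⟩ := exists_nat_pow_near (x := K i / lam i r) (y := 2)
        (by rw [one_le_div h]; exact hlM i r) (by norm_num)
      refine ⟨s, fun _ => ⟨?_, ?_⟩⟩
      · rw [div_lt_iff₀ h, pow_succ] at h2
        rw [div_le_iff₀ (by positivity)]
        linarith
      · rw [le_div_iff₀ h] at h1
        rw [le_div_iff₀ (by positivity)]
        linarith
    · exact ⟨0, fun h' => absurd h' h⟩
  choose σ hσ using hσ
  set L : ℕ := (univ.sup fun p : Fin N × Fin M => σ p.1 p.2) + 1 with hL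
  have hσL : ∀ i r, σ i r < L := by
    intro i r
    have := Finset.le_sup (f := fun p : Fin N × Fin M => σ p.1 p.2) (mem_univ (i, r))
    simp only at this
    omega
  set R : Fin N → ℕ → Finset (Fin M) := fun i s => univ.filter fun r => 0 < lam i r ∧ σ i r = s with hR
  have hgrp := fun (i : Fin N) (s : ℕ) => grp (e i) (lam i) (K i / 2 ^ s) (R i s)
    (fun r _ => hl0 i r)
    (fun r hr => by
      have h := (Finset.mem_filter.1 hr).2
      have := (hσ i r h.1).2
      rwa [h.2] at this)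
    (div_nonneg (hK0 i).le (by positivity))
  choose W hWc hWn hW using hgrp
  set y : ℝ := √((n : ℝ) / M) with hy
  have hy1 : 1 ≤ y := by
    rw [hy, Real.one_le_sqrt, one_le_div hM0]; exact hMn'
  set τ : Fin N → ℕ → ℝ := fun i s => √(25 * y * (s + 1) * (1 + l i) + 4 * (R i s).card) with hτ
  have hτ0 : ∀ i s, 0 ≤ τ i s := fun i s => Real.sqrt_nonneg _
  have hτs : ∀ i s, (τ i s) ^ 2 = 25 * y * (s + 1) * (1 + l i) + 4 * (R i s).card := fun i s =>
    Real.sq_sqrt (by have := hl i; positivity)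
  set β : Fin N → ℕ → ℝ := fun i s => τ i s * (3 / 2 * √(K i / 2 ^ s)) with hβ
  obtain ⟨δ, h1, h2, h3⟩ := partial4 (ι := Σ p : Fin N × Fin L, W p.1 p.2) M hM
    (fun g p => (p.2 : EuclideanSpace ℝ (Fin M)) g) (fun p => β p.1.1 p.1.2) (fun p => τ p.1.1 p.1.2)
    (fun p => hτ0 _ _)
    (fun p => mul_le_mul_of_nonneg_left (hWn _ _ _ p.2.2) (hτ0 _ _))
    (by
      intro p
      have h4 : (25 : ℝ) ≤ (τ p.1.1 p.1.2) ^ 2 := by
        rw [hτs]
        have h3 : (0 : ℝ) ≤ ((p.1.2 : ℕ) : ℝ) := Nat.cast_nonneg _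
        have h5 : (0 : ℝ) ≤ 4 * ((R p.1.1 p.1.2).card : ℝ) := by positivity
        have h6 : 1 ≤ y * (((p.1.2 : ℕ) : ℝ) + 1) * (1 + l p.1.1) :=
          one_le_mul_of_one_le_of_one_le (one_le_mul_of_one_le_of_one_le hy1 (by linarith))
            (by linarith [hl p.1.1])
        nlinarith
      have h6 : Real.exp (-(τ p.1.1 p.1.2) ^ 2 / 2) ≤ Real.exp (-2) :=
        Real.exp_le_exp.2 (by linarith)
      have h7 := exp_m2
      linarith)
    (by
      rw [Fintype.sum_sigma]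
      have h4 : ∀ p : Fin N × Fin L, ∑ _w : W p.1 p.2, 2 * (2 * Real.exp (-(τ p.1 p.2) ^ 2 / 2)) ≤
          4 * ((M : ℝ) / (1000 * n) * (1 / 4) ^ (p.2 : ℕ) * Real.exp (-(2 * l p.1))) := by
        intro p
        rw [Finset.sum_const, Finset.card_univ, Fintype.card_coe, nsmul_eq_mul]
        have h5 := est2 n M (by omega) hMn p.2 (R p.1 p.2).card (l p.1) (hl p.1)
        have h6 : ((W p.1 p.2).card : ℝ) ≤ 5 ^ (R p.1 p.2).card := by exact_mod_cast hWc p.1 p.2
        have h7 := mul_le_mul_of_nonneg_right h6 (Real.exp_pos (-(τ p.1 p.2) ^ 2 / 2)).le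
        have h8 := h7.trans h5
        linarith
      refine (Finset.sum_le_sum fun p _ => h4 p).trans ?_
      rw [Fintype.sum_prod_type]
      simp only
      have h9 : ∀ q : Fin N, ∑ s : Fin L, 4 * ((M : ℝ) / (1000 * n) * (1 / 4) ^ (s : ℕ) * Real.exp (-(2 * l q))) ≤
          4 * ((M : ℝ) / (1000 * n)) * (4 / 3) * Real.exp (-(2 * l q)) := by
        intro q
        have e9 : ∑ s : Fin L, 4 * ((M : ℝ) / (1000 * n) * (1 / 4) ^ (s : ℕ) * Real.exp (-(2 * l q))) =
            4 * ((M : ℝ) / (1000 * n)) * Real.exp (-(2 * l q)) * ∑ s ∈ range L, (1 / 4 : ℝ) ^ s := by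
          rw [← Fin.sum_univ_eq_sum_range (fun s => (1 / 4 : ℝ) ^ s) L, Finset.mul_sum]
          refine Finset.sum_congr rfl fun s _ => ?_
          ring
        rw [e9]
        have h10 := mul_le_mul_of_nonneg_left (sum_quarter L)
          (by positivity : (0 : ℝ) ≤ 4 * ((M : ℝ) / (1000 * n)) * Real.exp (-(2 * l q)))
        linarith
      refine (Finset.sum_le_sum fun q _ => h9 q).trans ?_
      rw [← Finset.mul_sum]
      have h11 := mul_le_mul_of_nonneg_left hlsum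
        (by positivity : (0 : ℝ) ≤ 4 * ((M : ℝ) / (1000 * n)) * (4 / 3))
      refine h11.trans ?_
      have h12 : 4 * ((M : ℝ) / (1000 * n)) * (4 / 3) * (2 * n) = 32 / 3000 * M := by
        field_simp
        ring
      rw [h12]
      nlinarith)
  refine ⟨δ, h1, h2, fun i => ?_⟩
  set x : EuclideanSpace ℝ (Fin M) := WithLp.toLp 2 δ with hx
  have hxg : ∀ g, x g = δ g := fun g => rfl
  have h5 : ∀ s < L, ∑ r ∈ R i s, lam i r * ⟪e i r, x⟫ ^ 2 ≤ (2 * (10 * β i s)) ^ 2 := by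
    intro s hs
    refine hW i s x (10 * β i s) (by simp only [hβ]; positivity) fun w hw => ?_
    have h6 := h3 ⟨(i, ⟨s, hs⟩), ⟨w, hw⟩⟩
    simp only at h6
    refine le_trans (le_of_eq ?_) h6
    rw [PiLp.inner_apply]
    congr 1
    refine Finset.sum_congr rfl fun g _ => ?_
    rw [hxg]
    simp [mul_comm]
  have h6 : ∀ s, (2 * (10 * β i s)) ^ 2 =
      900 * M * (25 * y) * ((s + 1) / 2 ^ s) + 3600 * ((R i s).card / 2 ^ s * K i) := by
    intro s
    simp only [hβ]
    rw [mul_pow, mul_pow, mul_pow, hτs, mul_pow, Real.sq_sqrt (div_nonneg (hK0 i).le (by positivity)), ← hKl i]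
    ring
  have h7 : ∑ r, lam i r * ⟪e i r, x⟫ ^ 2 = ∑ s ∈ range L, ∑ r ∈ R i s, lam i r * ⟪e i r, x⟫ ^ 2 := by
    have h8 : ∑ r, lam i r * ⟪e i r, x⟫ ^ 2 =
        ∑ r ∈ univ.filter (fun r => 0 < lam i r), lam i r * ⟪e i r, x⟫ ^ 2 := by
      symm
      refine Finset.sum_subset (Finset.subset_univ _) fun r _ hr => ?_
      have : lam i r = 0 := by
        by_contra h
        exact hr (Finset.mem_filter.2 ⟨Finset.mem_univ _, lt_of_le_of_ne (hl0 i r) (Ne.symm h)⟩)
      rw [this, zero_mul]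
    rw [h8, ← Finset.sum_fiberwise_of_maps_to (s := univ.filter (fun r => 0 < lam i r)) (t := range L)
      (g := fun r => σ i r) (fun r _ => Finset.mem_range.2 (hσL i r))]
    refine Finset.sum_congr rfl fun s _ => Finset.sum_congr ?_ fun _ _ => rfl
    simp only [hR, Finset.filter_filter]
  have h8 : ∑ s ∈ range L, ((R i s).card : ℝ) / 2 ^ s * K i ≤ 2 * M := by
    have h9 : ∀ s ∈ range L, ((R i s).card : ℝ) / 2 ^ s * K i ≤ ∑ r ∈ R i s, 2 * lam i r := by
      intro s _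
      have h10 : ∑ _r ∈ R i s, K i / 2 ^ s ≤ ∑ r ∈ R i s, 2 * lam i r := by
        refine Finset.sum_le_sum fun r hr => ?_
        have h := (Finset.mem_filter.1 hr).2
        have := (hσ i r h.1).1
        rwa [h.2] at this
      refine le_trans (le_of_eq ?_) h10
      rw [Finset.sum_const, nsmul_eq_mul]
      ring
    refine (Finset.sum_le_sum h9).trans ?_
    have h11 : ∑ s ∈ range L, ∑ r ∈ R i s, 2 * lam i r ≤ ∑ r, 2 * lam i r := by
      have h12 : ∑ s ∈ range L, ∑ r ∈ R i s, 2 * lam i r =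
          ∑ r ∈ univ.filter (fun r => 0 < lam i r), 2 * lam i r := by
        rw [← Finset.sum_fiberwise_of_maps_to (s := univ.filter (fun r => 0 < lam i r)) (t := range L)
          (g := fun r => σ i r) (fun r _ => Finset.mem_range.2 (hσL i r))]
        refine Finset.sum_congr rfl fun s _ => Finset.sum_congr ?_ fun _ _ => rfl
        simp only [hR, Finset.filter_filter]
      rw [h12]
      exact Finset.sum_le_sum_of_subset_of_nonneg (Finset.subset_univ _)
        (fun r _ _ => mul_nonneg (by norm_num) (hl0 i r))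
    refine h11.trans ?_
    rw [← Finset.mul_sum]
    linarith [hsumM i, hKM i]
  have h9 : ‖∑ g, δ g • v i g‖ ^ 2 ≤ (312 * √(√((n : ℝ) * M))) ^ 2 := by
    have h10 := hlx i x
    simp only [hxg] at h10
    rw [h10, h7]
    refine (Finset.sum_le_sum fun s hs => h5 s (Finset.mem_range.1 hs)).trans ?_
    simp only [h6]
    rw [Finset.sum_add_distrib, ← Finset.mul_sum, ← Finset.mul_sum]
    have h12 := sum_half' L
    have h13 : 900 * (M : ℝ) * (25 * y) * ∑ s ∈ range L, (((s : ℝ) + 1) / 2 ^ s) ≤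
        900 * M * (25 * y) * 4 := mul_le_mul_of_nonneg_left h12 (by positivity)
    have h14 : (312 * √(√((n : ℝ) * M))) ^ 2 = 97344 * (y * M) := by
      rw [mul_pow, Real.sq_sqrt (Real.sqrt_nonneg _)]
      have h15 : √((n : ℝ) * M) = y * M := by
        rw [hy]
        have h16 : (n : ℝ) * M = (n / M) * M ^ 2 := by field_simp
        rw [h16, Real.sqrt_mul (by positivity), Real.sqrt_sq hM0.le]
      rw [h15]
      norm_num
    rw [h14]
    have h17 : (M : ℝ) ≤ y * M := by nlinarith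
    nlinarith
  exact le_of_sq_le_sq h9 (by positivity)

end Pool.Agent.Q98.LF
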