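import Pool.Agent.Q98.LF.H2
import Pool.Agent.Q98.LF.Asm

/-!
# Full colouring and rounding for Hilbert norms
-/

set_option autoImplicit false

open Finset
open scoped RealInnerProductSpace

namespace Pool.Agent.Q98.LF

variable {H : Type} [NormedAddCommGroup H] [InnerProductSpace ℝ H]

theorem hil_set {N n m : ℕ} (l : Fin N → ℝ) (hl : ∀ q, 0 ≤ l q)
    (hls : ∑ q, Real.exp (-(2 * l q)) ≤ 2 * n) (v : Fin N → Fin m → H)
    (hv : ∀ i g, ‖v i g‖ * √(1 + l i) ≤ 1) (S : Finset (Fin m))
    (h4 : 4 ≤ S.card) (hS : S.card ≤ n) :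
    ∃ δ : Fin m → ℝ, (∀ i, δ i = 0 ∨ δ i = 1 ∨ δ i = -1) ∧
      (S.card : ℝ) ≤ 10 * ((S.filter fun i => δ i ≠ 0).card : ℝ) ∧
      ∀ k, ‖∑ i ∈ S, δ i • v k i‖ ≤ 312 * √(√((n : ℝ) * S.card)) := by
  classical
  set e := S.equivFin with he
  obtain ⟨δ, h1, h2, h3⟩ := hil_partial h4 hS l hl hls (fun k j => v k (e.symm j)) (fun k j => hv _ _)
  refine ⟨fun i => if h : i ∈ S then δ (e ⟨i, h⟩) else 0, ?_, ?_, ?_⟩
  · intro i
    by_cases h : i ∈ S
    · simp only [h, dif_pos]; exact h1 _
    · simp [h]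
  · refine h2.trans (le_of_eq ?_)
    congr 2
    refine Finset.card_bij (fun j _ => (e.symm j : Fin m)) ?_ ?_ ?_
    · intro j hj
      have := (Finset.mem_filter.1 hj).2
      simp only [Finset.mem_filter, Finset.coe_mem, true_and, dif_pos]
      simpa using this
    · intro j _ j' _ h
      exact e.symm.injective (Subtype.ext h)
    · intro i hi
      obtain ⟨hiS, hne⟩ := Finset.mem_filter.1 hi
      simp only [hiS, dif_pos] at hne
      exact ⟨e ⟨i, hiS⟩, Finset.mem_filter.2 ⟨Finset.mem_univ _, hne⟩, by simp⟩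
  · intro k
    refine le_trans (le_of_eq ?_) (h3 k)
    congr 1
    rw [← Finset.sum_coe_sort S, ← Equiv.sum_comp e.symm]
    refine Finset.sum_congr rfl fun j _ => ?_
    simp

theorem hil_her {N n m : ℕ} (l : Fin N → ℝ) (hl : ∀ q, 0 ≤ l q)
    (hls : ∑ q, Real.exp (-(2 * l q)) ≤ 2 * n) (v : Fin N → Fin m → H)
    (hv : ∀ i g, ‖v i g‖ * √(1 + l i) ≤ 1) :
    ∀ (c : ℕ) (S : Finset (Fin m)), S.card = c → S.card ≤ n →
    ∃ ε : Fin m → ℝ, (∀ i, ε i = 1 ∨ ε i = -1) ∧
      ∀ k, ‖∑ i ∈ S, ε i • v k i‖ ≤ 12480 * √(√((n : ℝ) * S.card)) := by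
  classical
  intro c
  induction c using Nat.strong_induction_on with
  | _ c ih =>
    intro S hc hS
    by_cases h4 : 4 ≤ S.card
    · obtain ⟨δ, h1, h2, h3⟩ := hil_set l hl hls v hv S h4 hS
      set Z := S.filter fun i => δ i = 0 with hZ
      have hZc : Z.card + (S.filter fun i => δ i ≠ 0).card = S.card :=
        Finset.card_filter_add_card_filter_not (s := S) (fun i => δ i = 0)
      have hZr : (Z.card : ℝ) + ((S.filter fun i => δ i ≠ 0).card : ℝ) = S.card := by
        exact_mod_cast hZc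
      have hS0 : (0 : ℝ) < S.card := by exact_mod_cast (by omega : 0 < S.card)
      have hZle : (Z.card : ℝ) ≤ 9 / 10 * S.card := by linarith
      have hZlt : Z.card < c := by
        rw [← hc]
        have : (Z.card : ℝ) < S.card := by linarith
        exact_mod_cast this
      obtain ⟨ε, g1, g2⟩ := ih Z.card hZlt Z rfl (by omega)
      refine ⟨fun i => if δ i = 0 then ε i else δ i, ?_, ?_⟩
      · intro i
        by_cases h : δ i = 0
        · simp only [h, if_true]; exact g1 i
        · simp only [h, if_false]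
          rcases h1 i with h' | h' | h'
          · exact absurd h' h
          · exact Or.inl h'
          · exact Or.inr h'
      · intro k
        have e1 : ∑ i ∈ S, (if δ i = 0 then ε i else δ i) • v k i =
            ∑ i ∈ S, δ i • v k i + ∑ i ∈ Z, ε i • v k i := by
          rw [hZ, Finset.sum_filter, ← Finset.sum_add_distrib]
          refine Finset.sum_congr rfl fun i _ => ?_
          by_cases h : δ i = 0 <;> simp [h]
        rw [e1]
        have e2 : √(√((n : ℝ) * Z.card)) ≤ 975 / 1000 * √(√((n : ℝ) * S.card)) := by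
          have h5 : √(√((975 / 1000 : ℝ) ^ 4)) = 975 / 1000 := by
            have : ((975 / 1000 : ℝ) ^ 4) = ((975 / 1000) ^ 2) ^ 2 := by norm_num
            rw [this, Real.sqrt_sq (by norm_num), Real.sqrt_sq (by norm_num)]
          rw [← h5, ← Real.sqrt_mul (by positivity), ← Real.sqrt_mul (by positivity)]
          apply Real.sqrt_le_sqrt
          apply Real.sqrt_le_sqrt
          have hm : (0 : ℝ) ≤ n := by positivity
          nlinarith [mul_le_mul_of_nonneg_left hZle hm, mul_nonneg hm hS0.le]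
        calc ‖∑ i ∈ S, δ i • v k i + ∑ i ∈ Z, ε i • v k i‖
            ≤ ‖∑ i ∈ S, δ i • v k i‖ + ‖∑ i ∈ Z, ε i • v k i‖ := norm_add_le _ _
          _ ≤ 312 * √(√((n : ℝ) * S.card)) + 12480 * √(√((n : ℝ) * Z.card)) :=
              add_le_add (h3 k) (g2 k)
          _ ≤ _ := by
              have := Real.sqrt_nonneg (√((n : ℝ) * S.card))
              linarith
    · refine ⟨fun _ => 1, fun _ => Or.inl rfl, fun k => ?_⟩
      push Not at h4
      calc ‖∑ i ∈ S, (1 : ℝ) • v k i‖ ≤ ∑ i ∈ S, ‖(1 : ℝ) • v k i‖ := norm_sum_le _ _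
        _ ≤ ∑ _i ∈ S, (1 : ℝ) := Finset.sum_le_sum fun i _ => by
            rw [one_smul]
            have h5 : 1 ≤ √(1 + l k) := by rw [Real.one_le_sqrt]; linarith [hl k]
            have h6 := hv k i
            have h7 := norm_nonneg (v k i)
            nlinarith
        _ = S.card := by simp
        _ ≤ 12480 * √(√((n : ℝ) * S.card)) := by
          rcases Nat.eq_zero_or_pos S.card with h0 | h0
          · rw [h0]; simp
          · have hs1 : (1 : ℝ) ≤ S.card := by exact_mod_cast h0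
            have hm1 : (1 : ℝ) ≤ n := by exact_mod_cast (by omega : 1 ≤ n)
            have h3 : (S.card : ℝ) ≤ 3 := by exact_mod_cast (by omega : S.card ≤ 3)
            have : 1 ≤ √(√((n : ℝ) * S.card)) := by
              rw [Real.one_le_sqrt, Real.one_le_sqrt]
              nlinarith
            linarith

theorem hil_her' {N n m : ℕ} (l : Fin N → ℝ) (hl : ∀ q, 0 ≤ l q)
    (hls : ∑ q, Real.exp (-(2 * l q)) ≤ 2 * n) (v : Fin N → Fin m → H)
    (hv : ∀ i g, ‖v i g‖ * √(1 + l i) ≤ 1) (S : Finset (Fin m)) (hS : S.card ≤ n) :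
    ∃ ε : Fin m → ℝ, (∀ i, ε i = 1 ∨ ε i = -1) ∧
      ∀ k, ‖∑ i ∈ S, ε i • v k i‖ ≤ 12480 * √(n : ℝ) := by
  obtain ⟨ε, h1, h2⟩ := hil_her l hl hls v hv _ S rfl hS
  refine ⟨ε, h1, fun k => (h2 k).trans ?_⟩
  have hS' : (S.card : ℝ) ≤ n := by exact_mod_cast hS
  have hm : (0 : ℝ) ≤ n := by positivity
  have : √(√((n : ℝ) * S.card)) ≤ √(n : ℝ) := by
    apply Real.sqrt_le_sqrt
    calc √((n : ℝ) * S.card) ≤ √((n : ℝ) ^ 2) := Real.sqrt_le_sqrt (by nlinarith)
      _ = n := Real.sqrt_sq hm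
  linarith

open Pool.Agent.Q98.SPN in
/-- rounding for Hilbert norms -/
lemma round3 (N n m : ℕ) (l : Fin N → ℝ) (hl : ∀ q, 0 ≤ l q)
    (hls : ∑ q, Real.exp (-(2 * l q)) ≤ 2 * n) (v : Fin N → Fin m → H)
    (hv : ∀ i g, ‖v i g‖ * √(1 + l i) ≤ 1)
    (x : Fin m → ℝ) (hx : ∀ g, |x g| ≤ 1) (hc : (univ.filter fun g => |x g| ≠ 1).card ≤ n) :
    ∃ ε : Fin m → ℝ, (∀ g, ε g = 1 ∨ ε g = -1) ∧ (∀ g, |x g| = 1 → ε g = x g) ∧
      ∀ i, ‖∑ g, (ε g - x g) • v i g‖ ≤ 2 * (12480 * √(n : ℝ)) := by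
  classical
  have hb0 : (0 : ℝ) ≤ 12480 * √(n : ℝ) := by positivity
  set F := univ.filter fun g => |x g| ≠ 1 with hF
  obtain ⟨e, he, hb⟩ := lin_disc (V := Fin N → H) (J := F) (fun g i => v i g) (12480 * √(n : ℝ)) n
    (by
      intro S hS
      obtain ⟨ε, h1, h2⟩ := hil_her' l hl hls v hv (S.map (Function.Embedding.subtype _))
        (by rw [Finset.card_map]; exact hS)
      refine ⟨fun j => ε j, fun j => h1 _, ?_⟩
      rw [pi_norm_le_iff_of_nonneg hb0]
      intro i
      have e : (∑ j ∈ S, ε j • (fun i => v i (j : Fin m))) i =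
          ∑ g ∈ S.map (Function.Embedding.subtype _), ε g • v i g := by
        rw [Finset.sum_map, Finset.sum_apply]
        refine Finset.sum_congr rfl fun j _ => ?_
        simp
      rw [e]
      exact h2 i)
    (Or.inl (by rw [Fintype.card_coe]; exact hc)) (fun g => x g) (fun g => hx g)
  refine ⟨fun g => if h : g ∈ F then e ⟨g, h⟩ else x g, fun g => ?_, fun g hg => ?_, fun i => ?_⟩
  · by_cases h : g ∈ F
    · simp only [h, dite_true]; exact he _
    · simp only [h, dite_false]
      rw [hF, Finset.mem_filter, not_and, not_not] at h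
      exact eq_or_eq_neg_of_abs_eq (h (Finset.mem_univ _))
  · have h : g ∉ F := by
      rw [hF, Finset.mem_filter, not_and, not_not]
      exact fun _ => hg
    simp only [h, dite_false]
  · rw [pi_norm_le_iff_of_nonneg (by positivity)] at hb
    refine le_trans (le_of_eq ?_) (hb i)
    rw [Finset.sum_apply]
    congr 1
    rw [← Finset.sum_subset (Finset.subset_univ F)]
    · rw [← Finset.sum_coe_sort F]
      refine Finset.sum_congr rfl fun j _ => ?_
      simp
    · intro g _ hg
      simp [hg]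

/-- Hilbert-valued additive functions -/
theorem hil_case (n m k : ℕ) (f : Fin n → Finset (Fin m) → ℝ) (v : Fin n → Fin k → Fin m → H)
    (R L : ℝ) (hR : 0 ≤ R) (hL : 0 ≤ L) (hv : ∀ i j g, ‖v i j g‖ ≤ wt j)
    (hf : ∀ i S T, ∃ j, |f i S - f i T| ≤
      R * ‖∑ g ∈ S, v i j g - ∑ g ∈ T, v i j g‖ + L * √((symmDiff S T).card : ℝ)) :
    ∃ B : Finset (Fin m), ∀ i, |f i B - f i Bᶜ| ≤ R * (24960 * √(n : ℝ)) + 2 * L * √(n : ℝ) := by
  classical
  set Φ : Fin n → (Fin m → ℝ) →ₗ[ℝ] (Fin k → H) := fun i =>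
    R • LinearMap.pi (fun j => Fintype.linearCombination ℝ (v i j)) with hΦ
  have hΦa : ∀ i u j, Φ i u j = R • ∑ g, u g • v i j g := by
    intro i u j
    simp [hΦ, Fintype.linearCombination_apply]
  refine asm0 n m f Φ L (R * (24960 * √(n : ℝ))) hL ?_ ?_
  · intro i S T
    obtain ⟨j, hj⟩ := hf i S T
    refine hj.trans (add_le_add ?_ (mul_le_mul_of_nonneg_left (le_of_eq ?_) hL))
    · refine le_trans (le_of_eq ?_) (norm_le_pi_norm _ j)
      rw [hΦa, norm_smul, Real.norm_of_nonneg hR]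
      congr 2
      simp only [Pi.sub_apply, ind, sub_smul, Finset.sum_sub_distrib]
      simp [Finset.sum_ite_mem]
    · rw [EuclideanSpace.norm_eq]
      congr 1
      rw [Finset.card_eq_sum_ones, Nat.cast_sum, ← Finset.sum_subset (Finset.subset_univ (symmDiff S T))]
      · refine Finset.sum_congr rfl fun g hg => ?_
        rw [Finset.mem_symmDiff] at hg
        simp only [Pi.sub_apply, ind]
        rcases hg with ⟨h1, h2⟩ | ⟨h1, h2⟩ <;> simp [h1, h2]
      · intro g _ hg
        rw [Finset.mem_symmDiff] at hg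
        push Not at hg
        simp only [Pi.sub_apply, ind]
        by_cases h1 : g ∈ S
        · simp [h1, hg.1 h1]
        · have : g ∉ T := fun h => h1 (hg.2 h)
          simp [h1, this]
  · intro x hx hxc
    set l : Fin (n * k) → ℝ := fun q => Real.log (((finProdFinEquiv.symm q).2 : ℕ) + 1) with hl
    have hl0 : ∀ q, 0 ≤ l q := fun q => log_nn _
    have hls : ∑ q, Real.exp (-(2 * l q)) ≤ 2 * n := by
      have e1 : ∀ q, Real.exp (-(2 * l q)) = 1 / ((((finProdFinEquiv.symm q).2 : ℕ) : ℝ) + 1) ^ 2 := by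
        intro q
        have hp : (0 : ℝ) < (((finProdFinEquiv.symm q).2 : ℕ) : ℝ) + 1 := by positivity
        rw [Real.exp_neg, ← one_div, show 2 * l q = l q + l q by ring, Real.exp_add, hl]
        simp only
        rw [Real.exp_log hp]
        congr 1
        ring
      simp only [e1]
      rw [Equiv.sum_comp finProdFinEquiv.symm (fun p : Fin n × Fin k => 1 / (((p.2 : ℕ) : ℝ) + 1) ^ 2),
        Fintype.sum_prod_type]
      simp only
      rw [Finset.sum_const, Finset.card_univ, Fintype.card_fin, nsmul_eq_mul,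
        Fin.sum_univ_eq_sum_range (fun j => 1 / ((j : ℝ) + 1) ^ 2) k]
      have h1 := sum_sq k
      have h2 : (0 : ℝ) ≤ n := Nat.cast_nonneg n
      nlinarith
    obtain ⟨ε, h1, h2, h3⟩ := round3 (n * k) n m l hl0 hls
      (fun q g => v (finProdFinEquiv.symm q).1 (finProdFinEquiv.symm q).2 g)
      (fun q g => by
        have h4 := hv (finProdFinEquiv.symm q).1 (finProdFinEquiv.symm q).2 g
        have h5 := log_nn ((finProdFinEquiv.symm q).2 : ℕ)
        unfold wt at h4
        rw [le_div_iff₀ (by positivity)] at h4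
        exact h4) x hx hxc
    refine ⟨ε, h1, h2, fun i => ?_⟩
    rw [pi_norm_le_iff_of_nonneg (by positivity)]
    intro j
    rw [hΦa, norm_smul, Real.norm_of_nonneg hR]
    refine mul_le_mul_of_nonneg_left ?_ hR
    have h4 := h3 (finProdFinEquiv (i, j))
    simp only [Equiv.symm_apply_apply] at h4
    refine le_trans (le_of_eq ?_) (h4.trans (by linarith))
    rfl

end Pool.Agent.Q98.LF
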