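import Pool.Agent.Q98.LF.Full
import Pool.Agent.Q98.LF.Wt

/-!
# The widths `1 / √(1 + log j)` are admissible
-/

set_option autoImplicit false

open Finset

namespace Pool.Agent.Q98.LF

lemma hyp_wt (n k : ℕ) : Hyp n (fun q : Fin (n * k) => wt (finProdFinEquiv.symm q).2) := by
  intro M hM hMn
  have hM0 : (0 : ℝ) < M := by exact_mod_cast (by omega : 0 < M)
  have hMn' : (M : ℝ) ≤ n := by exact_mod_cast hMn
  have hn0 : (0 : ℝ) < n := lt_of_lt_of_le hM0 hMn'
  have hest := fun j : ℕ => est n M (by omega) hMn j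
  have hsq : ∀ j : ℕ, 1 / ((j : ℝ) + 1) ^ 2 ≤ 1 := by
    intro j
    have : (0 : ℝ) ≤ j := Nat.cast_nonneg j
    rw [div_le_one (by positivity)]
    nlinarith
  refine ⟨fun q => 5 * √(√((n : ℝ) / M)) * √(1 + Real.log ((((finProdFinEquiv.symm q).2 : Fin k) : ℕ) + 1)),
    fun q => by positivity, fun q => ?_, fun q => ?_, ?_⟩
  · beta_reduce
    generalize ((finProdFinEquiv.symm q).2 : Fin k).val = j
    have hl := log_nn j
    have hs : 0 < √(1 + Real.log ((j : ℝ) + 1)) := by positivity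
    have h1 : √(√((n : ℝ) * M)) = √(√((n : ℝ) / M)) * √(M : ℝ) := by
      rw [← Real.sqrt_mul (by positivity)]
      congr 1
      have : √((n : ℝ) / M) * M = √((n : ℝ) / M) * √((M : ℝ) ^ 2) := by
        rw [Real.sqrt_sq hM0.le]
      rw [this, ← Real.sqrt_mul (by positivity)]
      congr 1
      field_simp
    rw [h1]
    unfold wt
    apply le_of_eq
    field_simp
  · refine le_trans (mul_le_mul_of_nonneg_left (hest _) (by norm_num)) ?_
    have h1 : (M : ℝ) / (1000 * n) ≤ 1 / 1000 := by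
      rw [div_le_div_iff₀ (by positivity) (by norm_num)]
      linarith
    have h2 := mul_le_mul h1 (hsq ((finProdFinEquiv.symm q).2 : Fin k)) (by positivity) (by norm_num)
    linarith
  · have h1 : ∀ q : Fin (n * k), 2 * (2 * Real.exp (-(5 * √(√((n : ℝ) / M)) *
        √(1 + Real.log ((((finProdFinEquiv.symm q).2 : Fin k) : ℕ) + 1))) ^ 2 / 2)) ≤
        4 * ((M : ℝ) / (1000 * n)) * (1 / (((((finProdFinEquiv.symm q).2 : Fin k) : ℕ) : ℝ) + 1) ^ 2) := by
      intro q
      have := hest ((finProdFinEquiv.symm q).2 : Fin k)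
      linarith
    refine (Finset.sum_le_sum fun q _ => h1 q).trans ?_
    rw [← Finset.mul_sum]
    have h2 : ∑ q : Fin (n * k), (1 / (((((finProdFinEquiv.symm q).2 : Fin k) : ℕ) : ℝ) + 1) ^ 2) ≤ (n : ℝ) * 2 := by
      rw [Equiv.sum_comp finProdFinEquiv.symm (fun p : Fin n × Fin k => (1 / ((((p.2 : Fin k) : ℕ) : ℝ) + 1) ^ 2)),
        Fintype.sum_prod_type]
      simp only [Finset.sum_const, Finset.card_univ, Fintype.card_fin, nsmul_eq_mul]
      refine mul_le_mul_of_nonneg_left ?_ hn0.le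
      rw [Fin.sum_univ_eq_sum_range (fun j : ℕ => 1 / ((j : ℝ) + 1) ^ 2) k]
      exact sum_sq k
    calc 4 * ((M : ℝ) / (1000 * n)) * ∑ q : Fin (n * k), (1 / (((((finProdFinEquiv.symm q).2 : Fin k) : ℕ) : ℝ) + 1) ^ 2)
        ≤ 4 * ((M : ℝ) / (1000 * n)) * (n * 2) := mul_le_mul_of_nonneg_left h2 (by positivity)
      _ = M / 125 := by field_simp; norm_num
      _ ≤ _ := by linarith

end Pool.Agent.Q98.LF
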