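import Pool.Agent.Q98.LF.Pc

/-!
# Partial colouring with slabs of arbitrary widths
-/

set_option autoImplicit false

open MeasureTheory ProbabilityTheory Finset
open scoped RealInnerProductSpace ENNReal

namespace Pool.Agent.Q98.LF

open Q189.Spencer
open Pool.Agent.TH84.HC (LC g1)

theorem partial3 (M m : ℕ) (hM : 4 ≤ M) (a : Fin M → Fin m → ℝ) (b : Fin m → ℝ) (t : Fin m → ℝ)
    (ht : ∀ k, 0 ≤ t k)
    (hA : ∀ k, t k * ‖(WithLp.toLp 2 (fun i => a i k) : EuclideanSpace ℝ (Fin M))‖ ≤ b k)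
    (hq : ∀ k, 2 * Real.exp (-(t k) ^ 2 / 2) ≤ 1 / 2)
    (hsum : ∑ k, 2 * (2 * Real.exp (-(t k) ^ 2 / 2)) ≤ 3 * (M : ℝ) / 200) :
    ∃ δ : Fin M → ℝ, (∀ i, δ i = 0 ∨ δ i = 1 ∨ δ i = -1) ∧
      (M : ℝ) ≤ 10 * ((univ.filter fun i => δ i ≠ 0).card : ℝ) ∧
      ∀ k, |∑ i, δ i * a i k| ≤ 10 * b k := by
  classical
  have hM0 : (0 : ℝ) < M := by exact_mod_cast (by omega : 0 < M)
  let A : Fin m → EuclideanSpace ℝ (Fin M) := fun k => WithLp.toLp 2 (fun i => a i k)
  have hmeas := poly_meas2 (n := M) (m := m) (by omega) A b t hA ht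
    (fun k => by linarith [hq k])
  let B : Set (Fin M → ℝ) := {g | ∀ k, |∑ i, g i * a i k| ≤ b k}
  have hBc : IsClosed B := by
    have : B = ⋂ k, {g : Fin M → ℝ | |∑ i, g i * a i k| ≤ b k} := by ext x; simp [B]
    rw [this]
    exact isClosed_iInter fun k => isClosed_le (by fun_prop) continuous_const
  have hBconv : Convex ℝ B := by
    intro x hx z hz α β hα hβ hαβ k
    have e : ∑ i, (α • x + β • z) i * a i k = α * ∑ i, x i * a i k + β * ∑ i, z i * a i k := by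
      rw [Finset.mul_sum, Finset.mul_sum, ← Finset.sum_add_distrib]
      refine Finset.sum_congr rfl fun i _ => ?_
      simp only [Pi.add_apply, Pi.smul_apply, smul_eq_mul]; ring
    rw [e]
    calc |α * ∑ i, x i * a i k + β * ∑ i, z i * a i k|
        ≤ |α * ∑ i, x i * a i k| + |β * ∑ i, z i * a i k| := abs_add_le _ _
      _ = α * |∑ i, x i * a i k| + β * |∑ i, z i * a i k| := by
          rw [abs_mul, abs_mul, abs_of_nonneg hα, abs_of_nonneg hβ]
      _ ≤ α * b k + β * b k := by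
          gcongr
          · exact hx k
          · exact hz k
      _ = b k := by rw [← add_mul, hαβ, one_mul]
  have hBs : ∀ g ∈ B, -g ∈ B := by
    intro g hg k
    have := hg k
    simpa [Finset.sum_neg_distrib, abs_neg] using this
  have hBm : Real.exp (-(3 * (M : ℝ) / 200)) / 2 ≤ ((Pool.Agent.H902R3.ZA.gm M) B).toReal := by
    have hrel : Pool.Agent.PZ871.gm M {x | ∀ k, |⟪x, A k⟫| ≤ b k} = (Pool.Agent.H902R3.ZA.gm M) B := by
      have hms : MeasurableSet {x : EuclideanSpace ℝ (Fin M) | ∀ k, |⟪x, A k⟫| ≤ b k} := by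
        have : {x : EuclideanSpace ℝ (Fin M) | ∀ k, |⟪x, A k⟫| ≤ b k} =
            ⋂ k, {x | |⟪x, A k⟫| ≤ b k} := by ext x; simp
        rw [this]
        exact MeasurableSet.iInter fun k => measurableSet_le (by fun_prop) measurable_const
      have h1 := Pool.Agent.TH84.HC.lint_pi M
        ({x : EuclideanSpace ℝ (Fin M) | ∀ k, |⟪x, A k⟫| ≤ b k}.indicator 1)
        (measurable_one.indicator hms)
      rw [lintegral_indicator_one hms] at h1
      rw [h1, ← lintegral_indicator_one hBc.measurableSet]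
      refine lintegral_congr fun z => ?_
      have hiff : ((WithLp.toLp 2 z : EuclideanSpace ℝ (Fin M)) ∈
          {x : EuclideanSpace ℝ (Fin M) | ∀ k, |⟪x, A k⟫| ≤ b k}) ↔ z ∈ B := by
        simp only [Set.mem_setOf_eq, B]
        refine forall_congr' fun k => ?_
        have : ⟪(WithLp.toLp 2 z : EuclideanSpace ℝ (Fin M)), A k⟫ = ∑ i, z i * a i k := by
          simp [A, PiLp.inner_apply, mul_comm]
        rw [this]
      by_cases hz : z ∈ B
      · rw [Set.indicator_of_mem (hiff.2 hz), Set.indicator_of_mem hz]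
        rfl
      · rw [Set.indicator_of_notMem (fun h => hz (hiff.1 h)), Set.indicator_of_notMem hz]
    rw [hrel, ENNReal.ofReal_le_iff_le_toReal (measure_ne_top _ _)] at hmeas
    refine le_trans ?_ hmeas
    have h1 : ∏ k, Real.exp (-(2 * (2 * Real.exp (-(t k) ^ 2 / 2)))) ≤
        ∏ k, (1 - 2 * Real.exp (-(t k) ^ 2 / 2)) := by
      refine Finset.prod_le_prod (fun k _ => (Real.exp_pos _).le) fun k _ => ?_
      have := pow_bound (2 * Real.exp (-(t k) ^ 2 / 2)) (by positivity) (hq k) 1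
      simpa using this
    refine le_trans ?_ h1
    rw [← Real.exp_sum, Finset.sum_neg_distrib]
    have h2 : Real.exp (-(3 * (M : ℝ) / 200)) ≤
        Real.exp (-(∑ k, 2 * (2 * Real.exp (-(t k) ^ 2 / 2)))) := Real.exp_le_exp.2 (by linarith)
    have h3 := Real.exp_pos (-(3 * (M : ℝ) / 200))
    linarith
  obtain ⟨δ, hδ, hcard, hmem⟩ := COL M B hBconv hBc hBs (fun _ => 1) (fun _ => 1)
    (fun _ => one_pos) (fun _ => by norm_num) hM hBm
  refine ⟨fun i => δ ⟨i, 0⟩, fun i => hδ _, ?_, ?_⟩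
  · have e : (univ.filter fun i => δ i ≠ 0).card =
        (univ.filter fun i : Fin M => δ ⟨i, 0⟩ ≠ 0).card := by
      refine Finset.card_bij (fun x _ => x.1) ?_ ?_ ?_
      · rintro ⟨i, j⟩ h
        obtain rfl : j = 0 := Subsingleton.elim _ _
        exact Finset.mem_filter.2 ⟨Finset.mem_univ _, (Finset.mem_filter.1 h).2⟩
      · rintro ⟨i, j⟩ _ ⟨i', j'⟩ _ h
        obtain rfl : j = 0 := Subsingleton.elim _ _
        obtain rfl : j' = 0 := Subsingleton.elim _ _
        change i = i' at h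
        rw [h]
      · intro i h
        exact ⟨⟨i, 0⟩, Finset.mem_filter.2 ⟨Finset.mem_univ _, (Finset.mem_filter.1 h).2⟩, rfl⟩
    rw [e] at hcard
    simpa using hcard
  · intro k
    have h1 := hmem k
    have e : ∑ i, (fun j => (1 / 10 : ℝ) * ((∑ l : Fin ((fun _ : Fin M => 1) j), δ ⟨j, l⟩) /
        ((fun _ : Fin M => 1) j : ℕ)) / (fun _ : Fin M => (1 : ℝ)) j) i * a i k =
        (1 / 10) * ∑ i, δ ⟨i, 0⟩ * a i k := by
      rw [Finset.mul_sum]
      refine Finset.sum_congr rfl fun i _ => ?_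
      simp
      ring
    rw [e, abs_mul, abs_of_pos (by norm_num : (0 : ℝ) < 1 / 10)] at h1
    change |∑ i, δ ⟨i, 0⟩ * a i k| ≤ _
    linarith

theorem partial4 {ι : Type} [Fintype ι] (M : ℕ) (hM : 4 ≤ M) (a : Fin M → ι → ℝ) (b : ι → ℝ) (t : ι → ℝ)
    (ht : ∀ k, 0 ≤ t k)
    (hA : ∀ k, t k * ‖(WithLp.toLp 2 (fun i => a i k) : EuclideanSpace ℝ (Fin M))‖ ≤ b k)
    (hq : ∀ k, 2 * Real.exp (-(t k) ^ 2 / 2) ≤ 1 / 2)
    (hsum : ∑ k, 2 * (2 * Real.exp (-(t k) ^ 2 / 2)) ≤ 3 * (M : ℝ) / 200) :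
    ∃ δ : Fin M → ℝ, (∀ i, δ i = 0 ∨ δ i = 1 ∨ δ i = -1) ∧
      (M : ℝ) ≤ 10 * ((univ.filter fun i => δ i ≠ 0).card : ℝ) ∧
      ∀ k, |∑ i, δ i * a i k| ≤ 10 * b k := by
  classical
  set q := (Fintype.equivFin ι).symm with hq'
  obtain ⟨δ, h1, h2, h3⟩ := partial3 M (Fintype.card ι) hM (fun i k => a i (q k)) (fun k => b (q k))
    (fun k => t (q k)) (fun k => ht _) (fun k => hA _) (fun k => hq _)
    (by rw [Equiv.sum_comp q (fun k => 2 * (2 * Real.exp (-(t k) ^ 2 / 2)))]; exact hsum)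
  refine ⟨δ, h1, h2, fun k => ?_⟩
  have := h3 (q.symm k)
  simpa using this

end Pool.Agent.Q98.LF
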