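import Pool.Agent.Q189.Spencer2

/-!
# Partial colouring with different widths
-/

set_option autoImplicit false

open MeasureTheory ProbabilityTheory Finset
open scoped RealInnerProductSpace ENNReal

namespace Pool.Agent.Q98.LF

open Q189.Spencer
open Pool.Agent.TH84.HC (LC g1)

/-- Gaussian measure of a symmetric polytope -/
theorem poly_meas2 {n m : ℕ} (hn : 0 < n) (a : Fin m → EuclideanSpace ℝ (Fin n)) (b t : Fin m → ℝ)
    (ha : ∀ k, t k * ‖a k‖ ≤ b k) (ht : ∀ k, 0 ≤ t k) (hq : ∀ k, 2 * Real.exp (-(t k) ^ 2 / 2) ≤ 1) :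
    ENNReal.ofReal (∏ k, (1 - 2 * Real.exp (-(t k) ^ 2 / 2))) ≤
      Pool.Agent.PZ871.gm n {x | ∀ k, |⟪x, a k⟫| ≤ b k} := by
  classical
  set e0 : EuclideanSpace ℝ (Fin n) := EuclideanSpace.single ⟨0, hn⟩ 1 with he0
  have he0n : ‖e0‖ = 1 := by simp [he0]
  set φ : Fin m → EuclideanSpace ℝ (Fin n) := fun k => if a k = 0 then e0 else ‖a k‖⁻¹ • a k with hφ
  have hφn : ∀ k, ‖φ k‖ = 1 := by
    intro k
    simp only [hφ]
    split_ifs with h
    · exact he0n
    · rw [norm_smul, norm_inv, norm_norm, inv_mul_cancel₀ (norm_ne_zero_iff.2 h)]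
  have hin : ∀ k (x : EuclideanSpace ℝ (Fin n)), |⟪x, φ k⟫| * ‖a k‖ = |⟪x, a k⟫| := by
    intro k x
    simp only [hφ]
    split_ifs with h
    · simp [h]
    · rw [inner_smul_right, abs_mul, abs_of_pos (inv_pos.2 (norm_pos_iff.2 h)), mul_comm, ← mul_assoc,
        mul_inv_cancel₀ (norm_ne_zero_iff.2 h), one_mul]
  have key := Pool.Agent.TH84.HC.sidak (n := n) (Finset.univ : Finset (Fin m))
    (fun k x => if |x| * ‖a k‖ ≤ b k then (1 : ℝ≥0∞) else 0) φ
    (fun k _ => LC_ind _ _ (norm_nonneg _)) (fun k _ => hφn k)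
  have hL : ∀ k : Fin m, ENNReal.ofReal (1 - 2 * Real.exp (-(t k) ^ 2 / 2)) ≤
      ∫⁻ x : ℝ, (if |x| * ‖a k‖ ≤ b k then (1 : ℝ≥0∞) else 0) ∂g1 := by
    intro k
    have h1 : (g1 {x : ℝ | |x| ≤ t k}) ≤
        ∫⁻ x : ℝ, (if |x| * ‖a k‖ ≤ b k then (1 : ℝ≥0∞) else 0) ∂g1 := by
      rw [← lintegral_indicator_one (measurableSet_le (by fun_prop) measurable_const)]
      refine lintegral_mono fun x => ?_
      by_cases hx : |x| ≤ t k
      · have : |x| * ‖a k‖ ≤ b k := (mul_le_mul_of_nonneg_right hx (norm_nonneg _)).trans (ha k)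
        simp [this, hx]
      · simp [hx]
    refine le_trans ?_ h1
    rw [ENNReal.ofReal_le_iff_le_toReal (measure_ne_top _ _)]
    exact tail (t k) (ht k)
  have hR : ∫⁻ w, ∏ k, (if |⟪w, φ k⟫| * ‖a k‖ ≤ b k then (1 : ℝ≥0∞) else 0)
      ∂(Pool.Agent.PZ871.gm n) = Pool.Agent.PZ871.gm n {x | ∀ k, |⟪x, a k⟫| ≤ b k} := by
    have hms : MeasurableSet {x : EuclideanSpace ℝ (Fin n) | ∀ k, |⟪x, a k⟫| ≤ b k} := by
      have : {x : EuclideanSpace ℝ (Fin n) | ∀ k, |⟪x, a k⟫| ≤ b k} =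
          ⋂ k, {x | |⟪x, a k⟫| ≤ b k} := by ext x; simp
      rw [this]
      exact MeasurableSet.iInter fun k => measurableSet_le (by fun_prop) measurable_const
    rw [← lintegral_indicator_one hms]
    refine lintegral_congr fun x => ?_
    simp only [hin]
    by_cases hx : ∀ k, |⟪x, a k⟫| ≤ b k
    · rw [Set.indicator_of_mem (by exact hx)]
      simp [hx]
    · rw [Set.indicator_of_notMem (by exact hx)]
      push Not at hx
      obtain ⟨k, hk⟩ := hx
      exact Finset.prod_eq_zero (Finset.mem_univ k) (if_neg (not_le.2 hk))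
  calc ENNReal.ofReal (∏ k, (1 - 2 * Real.exp (-(t k) ^ 2 / 2)))
      = ∏ k : Fin m, ENNReal.ofReal (1 - 2 * Real.exp (-(t k) ^ 2 / 2)) := by
        rw [ENNReal.ofReal_prod_of_nonneg]
        intro k _
        linarith [hq k]
    _ ≤ ∏ k : Fin m, ∫⁻ x : ℝ, (if |x| * ‖a k‖ ≤ b k then (1 : ℝ≥0∞) else 0) ∂g1 :=
        Finset.prod_le_prod' fun k _ => hL k
    _ ≤ _ := key
    _ = _ := hR

theorem partial2 (M m : ℕ) (hM : 4 ≤ M) (a : Fin M → Fin m → ℝ) (w : Fin m → ℝ)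
    (ha : ∀ i k, |a i k| ≤ w k) (s : ℝ) (t : Fin m → ℝ) (ht : ∀ k, 0 ≤ t k)
    (htw : ∀ k, t k * (w k * √(M : ℝ)) ≤ s) (hq : ∀ k, 2 * Real.exp (-(t k) ^ 2 / 2) ≤ 1 / 2)
    (hsum : ∑ k, 2 * (2 * Real.exp (-(t k) ^ 2 / 2)) ≤ 3 * (M : ℝ) / 200) :
    ∃ δ : Fin M → ℝ, (∀ i, δ i = 0 ∨ δ i = 1 ∨ δ i = -1) ∧
      (M : ℝ) ≤ 10 * ((univ.filter fun i => δ i ≠ 0).card : ℝ) ∧
      ∀ k, |∑ i, δ i * a i k| ≤ 10 * s := by
  classical
  have hM0 : (0 : ℝ) < M := by exact_mod_cast (by omega : 0 < M)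
  let A : Fin m → EuclideanSpace ℝ (Fin M) := fun k => WithLp.toLp 2 (fun i => a i k)
  have hA : ∀ k, t k * ‖A k‖ ≤ s := by
    intro k
    refine le_trans (mul_le_mul_of_nonneg_left ?_ (ht k)) (htw k)
    have hw : 0 ≤ w k := (abs_nonneg _).trans (ha ⟨0, by omega⟩ k)
    rw [EuclideanSpace.norm_eq]
    apply Real.sqrt_le_iff.2
    refine ⟨by positivity, ?_⟩
    calc ∑ i, ‖(A k) i‖ ^ 2 ≤ ∑ _i : Fin M, (w k) ^ 2 := by
          refine Finset.sum_le_sum fun i _ => ?_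
          have : ‖(A k) i‖ ≤ w k := ha i k
          have h0 : 0 ≤ ‖(A k) i‖ := norm_nonneg _
          nlinarith
      _ = M * (w k) ^ 2 := by simp
      _ = _ := by rw [mul_pow, Real.sq_sqrt hM0.le]; ring
  have hmeas := poly_meas2 (n := M) (m := m) (by omega) A (fun _ => s) t hA ht
    (fun k => by linarith [hq k])
  let B : Set (Fin M → ℝ) := {g | ∀ k, |∑ i, g i * a i k| ≤ s}
  have hBc : IsClosed B := by
    have : B = ⋂ k, {g : Fin M → ℝ | |∑ i, g i * a i k| ≤ s} := by ext x; simp [B]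
    rw [this]
    exact isClosed_iInter fun k => isClosed_le (by fun_prop) continuous_const
  have hBconv : Convex ℝ B := by
    intro x hx z hz α β hα hβ hαβ k
    have e : ∑ i, (α • x + β • z) i * a i k = α * ∑ i, x i * a i k + β * ∑ i, z i * a i k := by
      rw [Finset.mul_sum, Finset.mul_sum, ← Finset.sum_add_distrib]
      refine Finset.sum_congr rfl fun i _ => ?_
      simp only [Pi.add_apply, Pi.smul_apply, smul_eq_mul]; ring
    rw [e]
    calc |α * ∑ i, x i * a i k + β * ∑ i, z i * a i k|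
        ≤ |α * ∑ i, x i * a i k| + |β * ∑ i, z i * a i k| := abs_add_le _ _
      _ = α * |∑ i, x i * a i k| + β * |∑ i, z i * a i k| := by
          rw [abs_mul, abs_mul, abs_of_nonneg hα, abs_of_nonneg hβ]
      _ ≤ α * (s) + β * (s) := by
          gcongr
          · exact hx k
          · exact hz k
      _ = s := by rw [← add_mul, hαβ, one_mul]
  have hBs : ∀ g ∈ B, -g ∈ B := by
    intro g hg k
    have := hg k
    simpa [Finset.sum_neg_distrib, abs_neg] using this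
  have hBm : Real.exp (-(3 * (M : ℝ) / 200)) / 2 ≤ ((Pool.Agent.H902R3.ZA.gm M) B).toReal := by
    have hrel : Pool.Agent.PZ871.gm M {x | ∀ k, |⟪x, A k⟫| ≤ s} = (Pool.Agent.H902R3.ZA.gm M) B := by
      have hms : MeasurableSet {x : EuclideanSpace ℝ (Fin M) | ∀ k, |⟪x, A k⟫| ≤ s} := by
        have : {x : EuclideanSpace ℝ (Fin M) | ∀ k, |⟪x, A k⟫| ≤ s} =
            ⋂ k, {x | |⟪x, A k⟫| ≤ s} := by ext x; simp
        rw [this]
        exact MeasurableSet.iInter fun k => measurableSet_le (by fun_prop) measurable_const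
      have h1 := Pool.Agent.TH84.HC.lint_pi M
        ({x : EuclideanSpace ℝ (Fin M) | ∀ k, |⟪x, A k⟫| ≤ s}.indicator 1)
        (measurable_one.indicator hms)
      rw [lintegral_indicator_one hms] at h1
      rw [h1, ← lintegral_indicator_one hBc.measurableSet]
      refine lintegral_congr fun z => ?_
      have hiff : ((WithLp.toLp 2 z : EuclideanSpace ℝ (Fin M)) ∈
          {x : EuclideanSpace ℝ (Fin M) | ∀ k, |⟪x, A k⟫| ≤ s}) ↔ z ∈ B := by
        simp only [Set.mem_setOf_eq, B]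
        refine forall_congr' fun k => ?_
        have : ⟪(WithLp.toLp 2 z : EuclideanSpace ℝ (Fin M)), A k⟫ = ∑ i, z i * a i k := by
          simp [A, PiLp.inner_apply, mul_comm]
        rw [this]
      by_cases hz : z ∈ B
      · rw [Set.indicator_of_mem (hiff.2 hz), Set.indicator_of_mem hz]
        rfl
      · rw [Set.indicator_of_notMem (fun h => hz (hiff.1 h)), Set.indicator_of_notMem hz]
    rw [hrel, ENNReal.ofReal_le_iff_le_toReal (measure_ne_top _ _)] at hmeas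
    refine le_trans ?_ hmeas
    have h1 : ∏ k, Real.exp (-(2 * (2 * Real.exp (-(t k) ^ 2 / 2)))) ≤
        ∏ k, (1 - 2 * Real.exp (-(t k) ^ 2 / 2)) := by
      refine Finset.prod_le_prod (fun k _ => (Real.exp_pos _).le) fun k _ => ?_
      have := pow_bound (2 * Real.exp (-(t k) ^ 2 / 2)) (by positivity) (hq k) 1
      simpa using this
    refine le_trans ?_ h1
    rw [← Real.exp_sum, Finset.sum_neg_distrib]
    have h2 : Real.exp (-(3 * (M : ℝ) / 200)) ≤
        Real.exp (-(∑ k, 2 * (2 * Real.exp (-(t k) ^ 2 / 2)))) := Real.exp_le_exp.2 (by linarith)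
    have h3 := Real.exp_pos (-(3 * (M : ℝ) / 200))
    linarith
  obtain ⟨δ, hδ, hcard, hmem⟩ := COL M B hBconv hBc hBs (fun _ => 1) (fun _ => 1)
    (fun _ => one_pos) (fun _ => by norm_num) hM hBm
  refine ⟨fun i => δ ⟨i, 0⟩, fun i => hδ _, ?_, ?_⟩
  · have e : (univ.filter fun i => δ i ≠ 0).card =
        (univ.filter fun i : Fin M => δ ⟨i, 0⟩ ≠ 0).card := by
      refine Finset.card_bij (fun x _ => x.1) ?_ ?_ ?_
      · rintro ⟨i, j⟩ h
        obtain rfl : j = 0 := Subsingleton.elim _ _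
        exact Finset.mem_filter.2 ⟨Finset.mem_univ _, (Finset.mem_filter.1 h).2⟩
      · rintro ⟨i, j⟩ _ ⟨i', j'⟩ _ h
        obtain rfl : j = 0 := Subsingleton.elim _ _
        obtain rfl : j' = 0 := Subsingleton.elim _ _
        change i = i' at h
        rw [h]
      · intro i h
        exact ⟨⟨i, 0⟩, Finset.mem_filter.2 ⟨Finset.mem_univ _, (Finset.mem_filter.1 h).2⟩, rfl⟩
    rw [e] at hcard
    simpa using hcard
  · intro k
    have h1 := hmem k
    have e : ∑ i, (fun j => (1 / 10 : ℝ) * ((∑ l : Fin ((fun _ : Fin M => 1) j), δ ⟨j, l⟩) /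
        ((fun _ : Fin M => 1) j : ℕ)) / (fun _ : Fin M => (1 : ℝ)) j) i * a i k =
        (1 / 10) * ∑ i, δ ⟨i, 0⟩ * a i k := by
      rw [Finset.mul_sum]
      refine Finset.sum_congr rfl fun i _ => ?_
      simp
      ring
    rw [e, abs_mul, abs_of_pos (by norm_num : (0 : ℝ) < 1 / 10)] at h1
    change |∑ i, δ ⟨i, 0⟩ * a i k| ≤ _
    linarith


end Pool.Agent.Q98.LF
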