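import Pool.Agent.Helper133.BULib

/-!
# Few fractional coordinates for odd maps

`few`: an odd continuous map `G : ℝ^m → ℝ^n` has a zero `x ∈ [-1,1]^m` with at most `n` coordinates different
from `±1` (Borsuk-Ulam and the necklace map).
-/

set_option autoImplicit false

open Finset

namespace Pool.Agent.Q98.LF

/-- clamp to `[0,1]` -/
noncomputable def cl (t : ℝ) : ℝ := max 0 (min t 1)

lemma cl_mono {s t : ℝ} (h : s ≤ t) : cl s ≤ cl t := max_le_max_left 0 (min_le_min_right 1 h)

lemma cl_nonpos {t : ℝ} (h : t ≤ 0) : cl t = 0 := by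
  unfold cl
  rw [max_eq_left]
  exact (min_le_left _ _).trans h

lemma cl_ge {t : ℝ} (h : 1 ≤ t) : cl t = 1 := by
  unfold cl
  rw [min_eq_right h]
  simp

lemma continuous_cl : Continuous cl := by
  unfold cl
  fun_prop

/-- partial sums -/
noncomputable def P (w : ℕ → ℝ) (i : ℕ) : ℝ := ∑ j ∈ range i, |w j|

/-- the necklace coordinate -/
noncomputable def X (w : ℕ → ℝ) (N : ℕ) (c g : ℝ) : ℝ :=
  ∑ i ∈ range N, (cl (c * (P w i + max (w i) 0) - g) - cl (c * (P w i + max (-w i) 0) - g))

/-- values at the break points -/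
noncomputable def vv (w : ℕ → ℝ) (c g : ℝ) (i : ℕ) : ℝ := cl (c * P w i - g)

lemma P_neg (w : ℕ → ℝ) (i : ℕ) : P (fun j => - w j) i = P w i := by
  unfold P
  simp

lemma X_neg (w : ℕ → ℝ) (N : ℕ) (c g : ℝ) : X (fun j => - w j) N c g = - X w N c g := by
  unfold X
  rw [← Finset.sum_neg_distrib]
  refine Finset.sum_congr rfl fun i _ => ?_
  rw [P_neg]
  simp only [neg_neg]
  ring

lemma term_eq (w : ℕ → ℝ) (c g : ℝ) (i : ℕ) :
    cl (c * (P w i + max (w i) 0) - g) - cl (c * (P w i + max (-w i) 0) - g) =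
      (if 0 ≤ w i then (1 : ℝ) else -1) * (vv w c g (i + 1) - vv w c g i) := by
  unfold vv
  have h1 : P w (i + 1) = P w i + |w i| := by unfold P; rw [Finset.sum_range_succ]
  rw [h1]
  split_ifs with h
  · rw [max_eq_left h, max_eq_right (by linarith), abs_of_nonneg h, add_zero, one_mul]
  · have h' : w i < 0 := not_le.mp h
    rw [max_eq_right h'.le, max_eq_left (by linarith), abs_of_neg h', add_zero]
    ring

lemma vv_mono (w : ℕ → ℝ) (c g : ℝ) (hc : 0 ≤ c) (i : ℕ) : vv w c g i ≤ vv w c g (i + 1) := by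
  unfold vv
  apply cl_mono
  have h1 : P w (i + 1) = P w i + |w i| := by unfold P; rw [Finset.sum_range_succ]
  rw [h1]
  have := mul_nonneg hc (abs_nonneg (w i))
  linarith [mul_add c (P w i) |w i|]

lemma X_le (w : ℕ → ℝ) (c g : ℝ) (hc : 0 ≤ c) (N : ℕ) :
    |X w N c g| ≤ vv w c g N - vv w c g 0 := by
  unfold X
  refine (Finset.abs_sum_le_sum_abs _ _).trans ?_
  rw [← Finset.sum_range_sub]
  refine Finset.sum_le_sum fun i _ => ?_
  rw [term_eq, abs_mul]
  have h1 : |(if 0 ≤ w i then (1 : ℝ) else -1)| = 1 := by split_ifs <;> simp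
  rw [h1, one_mul, abs_of_nonneg (sub_nonneg.mpr (vv_mono w c g hc i))]

lemma X_one (w : ℕ → ℝ) (c g : ℝ) (hc : 0 ≤ c) (h0 : vv w c g 0 = 0) :
    ∀ N : ℕ, (∀ i ≤ N, vv w c g i = 0 ∨ vv w c g i = 1) →
      (vv w c g N = 0 → X w N c g = 0) ∧ (vv w c g N = 1 → |X w N c g| = 1) := by
  intro N
  induction N with
  | zero =>
    intro _
    refine ⟨fun _ => by simp [X], fun h => ?_⟩
    rw [h0] at h
    norm_num at h
  | succ N ih =>
    intro hv
    obtain ⟨ih0, ih1⟩ := ih fun i hi => hv i (by omega)
    have hs : X w (N + 1) c g = X w N c g +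
        (if 0 ≤ w N then (1 : ℝ) else -1) * (vv w c g (N + 1) - vv w c g N) := by
      unfold X
      rw [Finset.sum_range_succ, term_eq]
    have hm := vv_mono w c g hc N
    constructor
    · intro h
      have h2 : vv w c g N = 0 := by
        rcases hv N (by omega) with h3 | h3
        · exact h3
        · rw [h, h3] at hm; norm_num at hm
      rw [hs, ih0 h2, h, h2]
      ring
    · intro h
      rcases hv N (by omega) with h3 | h3
      · rw [hs, ih0 h3, h, h3]
        split_ifs <;> norm_num
      · rw [hs, h, h3, sub_self, mul_zero, add_zero]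
        exact ih1 h3

/-- extension by zero -/
noncomputable def ex {n : ℕ} (z : Fin (n + 1) → ℝ) (j : ℕ) : ℝ := if h : j < n + 1 then z ⟨j, h⟩ else 0

lemma ex_neg {n : ℕ} (z : Fin (n + 1) → ℝ) : ex (-z) = fun j => - ex z j := by
  funext j
  unfold ex
  split_ifs <;> simp

lemma continuous_ex {n : ℕ} (j : ℕ) : Continuous fun z : Fin (n + 1) → ℝ => ex z j := by
  unfold ex
  by_cases h : j < n + 1
  · simp only [h, dite_true]; fun_prop
  · simp only [h, dite_false]; fun_prop

lemma continuous_P {n : ℕ} (i : ℕ) : Continuous fun z : Fin (n + 1) → ℝ => P (ex z) i := by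
  unfold P
  exact continuous_finsetSum _ fun j _ => (continuous_ex j).abs

lemma continuous_X {n : ℕ} (N : ℕ) (c g : ℝ) :
    Continuous fun z : Fin (n + 1) → ℝ => X (ex z) N c g := by
  unfold X
  refine continuous_finsetSum _ fun i _ => ?_
  refine (continuous_cl.comp ?_).sub (continuous_cl.comp ?_)
  · exact (continuous_const.mul ((continuous_P i).add ((continuous_ex i).max continuous_const))).sub
      continuous_const
  · exact (continuous_const.mul ((continuous_P i).add ((continuous_ex i).neg.max continuous_const))).sub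
      continuous_const

/-- **Few fractional coordinates.** -/
theorem few (n m : ℕ) (G : Fin n → (Fin m → ℝ) → ℝ) (hG : ∀ i, Continuous (G i))
    (hodd : ∀ i x, G i (-x) = - G i x) :
    ∃ x : Fin m → ℝ, (∀ g, |x g| ≤ 1) ∧ (univ.filter fun g => |x g| ≠ 1).card ≤ n ∧
      ∀ i, G i x = 0 := by
  set xx : (Fin (n + 1) → ℝ) → (Fin m → ℝ) := fun z g => X (ex z) (n + 1) m g with hxx
  have hxc : Continuous xx := continuous_pi fun g => continuous_X _ _ _
  have hxo : ∀ z, xx (-z) = - xx z := by
    intro z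
    funext g
    simp only [hxx, Pi.neg_apply]
    rw [ex_neg, X_neg]
  obtain ⟨z, hz, hz0⟩ := Pool.Agent.Helper133.BU.borsuk_ulam n (fun z i => G i (xx z))
    (continuous_pi fun i => (hG i).comp hxc)
    (by intro z; funext i; simp only [Pi.neg_apply]; rw [hxo, hodd])
  have hsum : P (ex z) (n + 1) = 1 := by
    have h1 : ∑ i, |z i| = 1 := hz
    rw [← h1]
    unfold P
    rw [← Fin.sum_univ_eq_sum_range (fun j => |ex z j|) (n + 1)]
    refine Finset.sum_congr rfl fun j _ => ?_
    have hj : (j : ℕ) < n + 1 := j.2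
    simp only [ex, hj, dite_true, Fin.eta]
  have hm0 : (0 : ℝ) ≤ m := Nat.cast_nonneg m
  have hv0 : ∀ g : Fin m, vv (ex z) m (g : ℕ) 0 = 0 := by
    intro g
    unfold vv
    apply cl_nonpos
    simp [P]
  have hvN : ∀ g : Fin m, vv (ex z) m (g : ℕ) (n + 1) = 1 := by
    intro g
    unfold vv
    apply cl_ge
    rw [hsum, mul_one]
    have : ((g : ℕ) : ℝ) + 1 ≤ m := by exact_mod_cast g.2
    linarith
  refine ⟨xx z, ?_, ?_, ?_⟩
  · intro g
    refine (X_le (ex z) m (g : ℕ) hm0 (n + 1)).trans ?_
    rw [hv0, hvN]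
    norm_num
  · have hsub : (univ.filter fun g => |xx z g| ≠ 1).image (fun g : Fin m => (g : ℕ)) ⊆
        (range n).image fun i => ⌊(m : ℝ) * P (ex z) (i + 1)⌋₊ := by
      intro q hq
      rw [Finset.mem_image] at hq
      obtain ⟨g, hg, rfl⟩ := hq
      rw [Finset.mem_filter] at hg
      by_contra hcon
      apply hg.2
      refine (X_one (ex z) m (g : ℕ) hm0 (hv0 g) (n + 1) ?_).2 (hvN g)
      intro i hi
      rcases Nat.eq_zero_or_pos i with h0 | h0
      · subst h0; exact Or.inl (hv0 g)
      · rcases Nat.eq_or_lt_of_le hi with h1 | h1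
        · rw [h1]; exact Or.inr (hvN g)
        · unfold vv
          by_cases h2 : (m : ℝ) * P (ex z) i - (g : ℕ) ≤ 0
          · exact Or.inl (cl_nonpos h2)
          · by_cases h3 : 1 ≤ (m : ℝ) * P (ex z) i - (g : ℕ)
            · exact Or.inr (cl_ge h3)
            · exfalso
              apply hcon
              rw [Finset.mem_image]
              refine ⟨i - 1, by rw [Finset.mem_range]; omega, ?_⟩
              rw [Nat.sub_add_cancel h0]
              push Not at h2 h3
              rw [Nat.floor_eq_iff (by linarith [Nat.cast_nonneg (α := ℝ) (g : ℕ)])]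
              constructor <;> linarith
    rw [← Finset.card_image_of_injective _ Fin.val_injective]
    refine (Finset.card_le_card hsub).trans ?_
    refine Finset.card_image_le.trans ?_
    rw [Finset.card_range]
  · intro i
    exact congrFun hz0 i

end Pool.Agent.Q98.LF
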